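import Pool.Agent.H66.FY.Ray
import Pool.Agent.H66.FX.Sel

/-!
# The Schrijver–Gurvits–Samorodnitsky bound for systems of links
-/

set_option linter.unusedSectionVars false

namespace Pool.Agent.H66.FY

open Finset Pool.Agent.H66.FX

variable {ρ γ L : Type*} [DecidableEq ρ] [DecidableEq γ] [DecidableEq L]

/-- Add `u l` to the coordinate `rw l` for all `l ∈ S`. -/
def addS (ℓ : ρ → ℝ) (fr : L → ρ) (u : L → ℝ) (S : Finset L) : ρ → ℝ :=
  fun q => ℓ q + ∑ l ∈ S.filter (fun l => fr l = q), u l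

theorem addS_empty (ℓ : ρ → ℝ) (fr : L → ρ) (u : L → ℝ) : addS ℓ fr u ∅ = ℓ := by
  funext q; simp [addS]

theorem addS_insert (ℓ : ρ → ℝ) (fr : L → ρ) (u : L → ℝ) {S : Finset L} {l : L} (hl : l ∉ S) :
    addS ℓ fr u (insert l S) = inc (addS ℓ fr u S) (fr l) (u l) := by
  funext q
  simp only [addS, inc]
  rw [Finset.filter_insert]
  by_cases h : fr l = q
  · rw [if_pos h, if_pos h.symm, sum_insert (fun hh => hl (mem_filter.1 hh).1)]; ring
  · rw [if_neg h, if_neg (fun hh => h hh.symm)]; ring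

section Pos

variable {a : ρ → γ → ℝ} {ℓ : ρ → ℝ} {T : Finset γ} {A : Finset ρ}

theorem P_pos (hTA : T.card ≤ A.card) (ha : ∀ r ∈ A, ∀ c ∈ T, 0 < a r c)
    (hl : ∀ r ∈ A, 0 < ℓ r) : 0 < P a ℓ T A := by
  unfold P
  refine M_pos _ _ (by simpa using hTA) ?_ hl
  intro r hr c hc; exact ha r hr c (Finset.mem_toList.1 hc)

theorem addS_pos (hl : ∀ r ∈ A, 0 < ℓ r) (fr : L → ρ) {u : L → ℝ} (S : Finset L)
    (hu : ∀ l, 0 ≤ u l) : ∀ r ∈ A, 0 < addS ℓ fr u S r := by
  intro r hr
  unfold addS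
  have := hl r hr
  have h2 : 0 ≤ ∑ l ∈ S.filter (fun l => fr l = r), u l := sum_nonneg fun l _ => hu l
  linarith

theorem submodS (hTA : T.card ≤ A.card) (ha : ∀ r ∈ A, ∀ c ∈ T, 0 < a r c)
    (hl : ∀ r ∈ A, 0 < ℓ r) (fr : L → ρ) {u : L → ℝ} (hu : ∀ l, 0 ≤ u l) (S : Finset L)
    (hS : ∀ l ∈ S, fr l ∈ A) {s : ρ} (hs : s ∈ A) {v : ℝ} (hv : 0 ≤ v) :
    P a (inc (addS ℓ fr u S) s v) T A * P a ℓ T A ≤
      P a (addS ℓ fr u S) T A * P a (inc ℓ s v) T A := by
  induction S using Finset.induction_on with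
  | empty => rw [addS_empty, mul_comm]
  | insert l S hlS ih =>
    have ih := ih (fun l' hl' => hS l' (mem_insert_of_mem hl'))
    rw [addS_insert ℓ fr u hlS]
    set ℓ' := addS ℓ fr u S with hℓ'
    have hl' : ∀ r ∈ A, 0 < ℓ' r := addS_pos hl fr S hu
    have h2 := submod2 hTA ha hl' (hS l (mem_insert_self _ _)) hs (hu l) hv
    have p1 : 0 < P a ℓ' T A := P_pos hTA ha hl'
    have p2 : 0 < P a (inc ℓ' s v) T A := P_pos hTA ha (inc_pos hl' s hv)
    have p3 : 0 < P a ℓ T A := P_pos hTA ha hl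
    have p4 : 0 < P a (inc ℓ' (fr l) (u l)) T A := P_pos hTA ha (inc_pos hl' _ (hu l))
    have h3 : (P a (inc (inc ℓ' (fr l) (u l)) s v) T A * P a ℓ T A) *
        (P a ℓ' T A * P a (inc ℓ' s v) T A) ≤
        (P a (inc ℓ' (fr l) (u l)) T A * P a (inc ℓ s v) T A) *
        (P a ℓ' T A * P a (inc ℓ' s v) T A) := by
      calc _ = (P a (inc (inc ℓ' (fr l) (u l)) s v) T A * P a ℓ' T A) *
            (P a (inc ℓ' s v) T A * P a ℓ T A) := by ring
        _ ≤ (P a (inc ℓ' (fr l) (u l)) T A * P a (inc ℓ' s v) T A) *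
            (P a ℓ' T A * P a (inc ℓ s v) T A) :=
            mul_le_mul h2 ih (by positivity) (by positivity)
        _ = _ := by ring
    exact le_of_mul_le_mul_right h3 (by positivity)

theorem prod_bound (hTA : T.card ≤ A.card) (ha : ∀ r ∈ A, ∀ c ∈ T, 0 < a r c)
    (hl : ∀ r ∈ A, 0 < ℓ r) (fr : L → ρ) {u : L → ℝ} (hu : ∀ l, 0 ≤ u l) (S : Finset L)
    (hS : ∀ l ∈ S, fr l ∈ A) :
    P a (addS ℓ fr u S) T A * P a ℓ T A ^ S.card ≤
      P a ℓ T A * ∏ l ∈ S, P a (inc ℓ (fr l) (u l)) T A := by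
  induction S using Finset.induction_on with
  | empty => simp [addS_empty]
  | insert l S hlS ih =>
    have ih := ih (fun l' hl' => hS l' (mem_insert_of_mem hl'))
    have h2 := submodS hTA ha hl fr hu S (fun l' hl' => hS l' (mem_insert_of_mem hl'))
      (hS l (mem_insert_self _ _)) (hu l)
    rw [addS_insert ℓ fr u hlS, card_insert_of_notMem hlS, prod_insert hlS, pow_succ]
    have p3 : 0 < P a ℓ T A := P_pos hTA ha hl
    have p5 : 0 < P a (inc ℓ (fr l) (u l)) T A := P_pos hTA ha (inc_pos hl _ (hu l))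
    calc P a (inc (addS ℓ fr u S) (fr l) (u l)) T A * (P a ℓ T A ^ S.card * P a ℓ T A)
        = (P a (inc (addS ℓ fr u S) (fr l) (u l)) T A * P a ℓ T A) * P a ℓ T A ^ S.card := by ring
      _ ≤ (P a (addS ℓ fr u S) T A * P a (inc ℓ (fr l) (u l)) T A) * P a ℓ T A ^ S.card :=
          mul_le_mul_of_nonneg_right h2 (by positivity)
      _ = (P a (addS ℓ fr u S) T A * P a ℓ T A ^ S.card) * P a (inc ℓ (fr l) (u l)) T A := by ring
      _ ≤ (P a ℓ T A * ∏ l ∈ S, P a (inc ℓ (fr l) (u l)) T A) *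
            P a (inc ℓ (fr l) (u l)) T A := mul_le_mul_of_nonneg_right ih p5.le
      _ = _ := by ring

/-- One step, strictly positive case. -/
theorem step_pos (hTA : T.card < A.card) (ha : ∀ r ∈ A, ∀ c ∈ T, 0 < a r c)
    (hl : ∀ r ∈ A, 0 < ℓ r) (fr : L → ρ) (S : Finset L) (hS : ∀ l ∈ S, fr l ∈ A)
    (p : L → ℝ) (hp : ∀ l ∈ S, 0 < p l) (hp1 : ∀ l ∈ S, p l < 1) (hsum : ∑ l ∈ S, p l = 1)
    {K : ℝ} (hK : ∀ u : L → ℝ, (∀ l, 0 < u l) →
      K * ∏ l ∈ S, u l ^ p l ≤ P a (addS ℓ fr u S) T A) :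
    K * ∏ l ∈ S, (1 - p l) ^ (1 - p l) ≤ ∑ l ∈ S, P a ℓ T (A.erase (fr l)) := by
  set r0 := P a ℓ T A with hr0
  have hr0p : 0 < r0 := P_pos hTA.le ha hl
  set R : L → ℝ := fun l => P a ℓ T (A.erase (fr l)) with hR
  have hRp : ∀ l ∈ S, 0 < R l := by
    intro l hlS
    have hc : (A.erase (fr l)).card + 1 = A.card := Finset.card_erase_add_one (hS l hlS)
    exact P_pos (by omega) (fun r hr c hc => ha r (mem_of_mem_erase hr) c hc)
      (fun r hr => hl r (mem_of_mem_erase hr))
  set u : L → ℝ := fun l => if l ∈ S then p l / (1 - p l) * (r0 / R l) else 1 with hu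
  have hup : ∀ l, 0 < u l := by
    intro l
    simp only [hu]
    split
    · rename_i h
      have h1 := hp l h
      have h2 := hp1 l h
      have h3 := hRp l h
      have h4 : 0 < 1 - p l := by linarith
      positivity
    · exact one_pos
  have hK' := hK u hup
  have hpb := prod_bound hTA.le ha hl fr (fun l => (hup l).le) S hS
  have hfac : ∀ l ∈ S, P a (inc ℓ (fr l) (u l)) T A = r0 / (1 - p l) := by
    intro l hlS
    have h4 : 0 < 1 - p l := by have := hp1 l hlS; linarith
    have h5 := (hRp l hlS).ne'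
    rw [P_inc a ℓ T A (hS l hlS)]
    have : u l = p l / (1 - p l) * (r0 / R l) := by simp only [hu, if_pos hlS]
    rw [this]
    change r0 + p l / (1 - p l) * (r0 / R l) * R l = r0 / (1 - p l)
    field_simp
    ring
  rw [prod_congr rfl hfac, Finset.prod_div_distrib, prod_const] at hpb
  have hden : 0 < ∏ l ∈ S, (1 - p l) := prod_pos fun l h => by have := hp1 l h; linarith
  have hpb2 : P a (addS ℓ fr u S) T A ≤ r0 / ∏ l ∈ S, (1 - p l) := by
    have h6 : P a (addS ℓ fr u S) T A * r0 ^ S.card ≤ (r0 / ∏ l ∈ S, (1 - p l)) * r0 ^ S.card := by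
      refine hpb.trans (le_of_eq ?_)
      rw [mul_div_assoc', div_mul_eq_mul_div]
    exact le_of_mul_le_mul_right h6 (by positivity)
  have hpr : ∏ l ∈ S, u l ^ p l =
      (∏ l ∈ S, (p l / (1 - p l)) ^ p l) * (r0 / ∏ l ∈ S, R l ^ p l) := by
    have h7 : ∀ l ∈ S, u l ^ p l = (p l / (1 - p l)) ^ p l * (r0 ^ p l / R l ^ p l) := by
      intro l hlS
      have h4 : 0 < 1 - p l := by have := hp1 l hlS; linarith
      have : u l = p l / (1 - p l) * (r0 / R l) := by simp only [hu, if_pos hlS]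
      rw [this, Real.mul_rpow (div_nonneg (hp l hlS).le h4.le)
        (div_nonneg hr0p.le (hRp l hlS).le), Real.div_rpow hr0p.le (hRp l hlS).le]
    rw [prod_congr rfl h7, prod_mul_distrib, Finset.prod_div_distrib,
      ← Real.rpow_sum_of_pos hr0p, hsum, Real.rpow_one]
  have hRprod : 0 < ∏ l ∈ S, R l ^ p l := prod_pos fun l h => Real.rpow_pos_of_pos (hRp l h) _
  have hpprod : 0 < ∏ l ∈ S, (p l / (1 - p l)) ^ p l := prod_pos fun l h => by
    have h4 : 0 < 1 - p l := by have := hp1 l h; linarith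
    exact Real.rpow_pos_of_pos (div_pos (hp l h) h4) _
  -- AM-GM
  have hamgm : ∏ l ∈ S, (R l / p l) ^ p l ≤ ∑ l ∈ S, R l := by
    have := Real.geom_mean_le_arith_mean_weighted S p (fun l => R l / p l)
      (fun l h => (hp l h).le) hsum (fun l h => div_nonneg (hRp l h).le (hp l h).le)
    refine this.trans (le_of_eq ?_)
    refine sum_congr rfl fun l h => ?_
    have := (hp l h).ne'
    field_simp
  refine le_trans ?_ hamgm
  have h8 : K * ((∏ l ∈ S, (p l / (1 - p l)) ^ p l) * (r0 / ∏ l ∈ S, R l ^ p l)) ≤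
      r0 / ∏ l ∈ S, (1 - p l) := by
    rw [← hpr]; exact hK'.trans hpb2
  have hPp : 0 < ∏ l ∈ S, p l ^ p l := prod_pos fun l h => Real.rpow_pos_of_pos (hp l h) _
  have hXD : (∏ l ∈ S, (p l / (1 - p l)) ^ p l) * ∏ l ∈ S, (1 - p l) =
      (∏ l ∈ S, p l ^ p l) * ∏ l ∈ S, (1 - p l) ^ (1 - p l) := by
    rw [← prod_mul_distrib, ← prod_mul_distrib]
    refine prod_congr rfl fun l h => ?_
    have h4 : 0 < 1 - p l := by have := hp1 l h; linarith
    rw [Real.div_rpow (hp l h).le h4.le, Real.rpow_sub h4, Real.rpow_one]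
    have := (Real.rpow_pos_of_pos h4 (p l)).ne'
    field_simp
  have hRP : ∏ l ∈ S, (R l / p l) ^ p l = (∏ l ∈ S, R l ^ p l) / ∏ l ∈ S, p l ^ p l := by
    rw [← Finset.prod_div_distrib]
    exact prod_congr rfl fun l h => Real.div_rpow (hRp l h).le (hp l h).le _
  rw [hRP, le_div_iff₀ hPp]
  generalize (∏ l ∈ S, (p l / (1 - p l)) ^ p l) = X at h8 hXD hpprod
  generalize (∏ l ∈ S, R l ^ p l) = Y at h8 hRprod ⊢
  generalize (∏ l ∈ S, (1 - p l)) = D at h8 hXD hden
  generalize (∏ l ∈ S, p l ^ p l) = Pp at hXD hPp ⊢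
  generalize (∏ l ∈ S, (1 - p l) ^ (1 - p l)) = Q at hXD ⊢
  have h9 : K * (X * (r0 / Y)) * (D * Y) ≤ r0 / D * (D * Y) :=
    mul_le_mul_of_nonneg_right h8 (by positivity)
  have h11 : K * (X * (r0 / Y)) * (D * Y) = r0 * (K * (X * D)) := by
    field_simp
  have h12 : r0 / D * (D * Y) = r0 * Y := by
    field_simp
  rw [h11, h12] at h9
  have h13 := le_of_mul_le_mul_left h9 hr0p
  rw [hXD] at h13
  linarith

end Pos

/-- One step, general case. -/
theorem step {a : ρ → γ → ℝ} {ℓ : ρ → ℝ} {T : Finset γ} {A : Finset ρ}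
    (hTA : T.card < A.card) (ha : ∀ r c, 0 ≤ a r c)
    (hl : ∀ r, 0 ≤ ℓ r) (fr : L → ρ) (S : Finset L) (hS : ∀ l ∈ S, fr l ∈ A)
    (p : L → ℝ) (hp : ∀ l ∈ S, 0 < p l) (hp1 : ∀ l ∈ S, p l < 1) (hsum : ∑ l ∈ S, p l = 1)
    {K : ℝ} (hK : ∀ u : L → ℝ, (∀ l, 0 < u l) →
      K * ∏ l ∈ S, u l ^ p l ≤ P a (addS ℓ fr u S) T A) :
    K * ∏ l ∈ S, (1 - p l) ^ (1 - p l) ≤ ∑ l ∈ S, P a ℓ T (A.erase (fr l)) := by
  have h1 : ∀ δ : ℝ, 0 < δ → K * ∏ l ∈ S, (1 - p l) ^ (1 - p l) ≤ ∑ l ∈ S,
      M (fun r c => a r c + δ) (fun r => ℓ r + δ) T.toList (A.erase (fr l)) := by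
    intro δ hδ
    refine step_pos (a := fun r c => a r c + δ) (ℓ := fun r => ℓ r + δ) hTA
      (fun r _ c _ => add_pos_of_nonneg_of_pos (ha r c) hδ)
      (fun r _ => add_pos_of_nonneg_of_pos (hl r) hδ) fr S hS p hp hp1 hsum ?_
    intro u hu
    refine (hK u hu).trans ?_
    unfold P
    refine M_mono _ _ (fun r _ c _ => ha r c) ?_ (fun r _ c _ => by linarith) ?_
    · intro r _
      unfold addS
      exact add_nonneg (hl r) (sum_nonneg fun l _ => (hu l).le)
    · intro r _
      unfold addS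
      linarith
  have hcont : Continuous fun δ : ℝ => ∑ l ∈ S,
      M (fun r c => a r c + δ) (fun r => ℓ r + δ) T.toList (A.erase (fr l)) :=
    continuous_finsetSum _ fun l _ => M_continuous a ℓ T.toList (A.erase (fr l))
  have hlim := (hcont.tendsto 0).mono_left (nhdsWithin_le_nhds (s := Set.Ioi (0:ℝ)))
  have hge := ge_of_tendsto hlim (Filter.eventually_of_mem self_mem_nhdsWithin
    (fun δ hδ => h1 δ hδ))
  simpa [P] using hge

/-- The entries: numbers of links. -/
noncomputable def ent (S : Finset L) (fr : L → ρ) (fc : L → γ) (r : ρ) (c : γ) : ℝ :=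
  ((S.filter fun l => fr l = r ∧ fc l = c).card : ℝ)

/-- The linear forms of the rows in the remaining variables. -/
noncomputable def lin (S : Finset L) (fr : L → ρ) (fc : L → γ) (T : Finset γ) (y : L → ℝ) (r : ρ) :
    ℝ := ∑ l ∈ S.filter (fun l => fr l = r ∧ fc l ∉ T), y l

/-- The factor of a link. -/
noncomputable def wt (fc : L → γ) (p : L → ℝ) (T : Finset γ) (y : L → ℝ) (l : L) : ℝ :=
  if fc l ∈ T then (1 / p l) ^ p l * (1 - p l) ^ (1 - p l) else (y l * (1 / p l)) ^ p l

theorem bethe_aux (S : Finset L) (fr : L → ρ) (fc : L → γ) (p : L → ℝ)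
    (hp : ∀ l ∈ S, 0 < p l) (hp1 : ∀ l ∈ S, p l < 1) (R0 : Finset ρ) (C0 : Finset γ)
    (hrow : ∀ r ∈ R0, ∑ l ∈ S.filter (fun l => fr l = r), p l = 1)
    (hcol : ∀ c ∈ C0, ∑ l ∈ S.filter (fun l => fc l = c), p l = 1)
    (hfr : ∀ l ∈ S, fr l ∈ R0) (hcard : R0.card = C0.card) :
    ∀ T : Finset γ, T ⊆ C0 → ∀ y : L → ℝ, (∀ l, 0 < y l) →
      ∏ l ∈ S, wt fc p T y l ≤ P (ent S fr fc) (lin S fr fc T y) T R0 := by
  intro T
  induction T using Finset.induction_on with
  | empty =>
    intro _ y hy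
    rw [P_empty]
    have h4 : ∏ l ∈ S, wt fc p ∅ y l =
        ∏ r ∈ R0, ∏ l ∈ S.filter (fun l => fr l = r), (y l * (1 / p l)) ^ p l := by
      rw [Finset.prod_fiberwise_of_maps_to hfr]
      exact prod_congr rfl fun l _ => by simp [wt]
    rw [h4]
    refine prod_le_prod (fun r _ => prod_nonneg fun l hl => ?_) fun r hr => ?_
    · exact Real.rpow_nonneg (mul_nonneg (hy l).le
        (one_div_nonneg.2 (hp l (mem_filter.1 hl).1).le)) _
    · have := Real.geom_mean_le_arith_mean_weighted (S.filter (fun l => fr l = r)) p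
        (fun l => y l * (1 / p l)) (fun l hl => (hp l (mem_filter.1 hl).1).le) (hrow r hr)
        (fun l hl => mul_nonneg (hy l).le (one_div_nonneg.2 (hp l (mem_filter.1 hl).1).le))
      refine this.trans (le_of_eq ?_)
      unfold lin
      have h5 : (S.filter fun l => fr l = r ∧ fc l ∉ (∅ : Finset γ)) =
          S.filter (fun l => fr l = r) := filter_congr fun l _ => by simp
      rw [h5]
      refine sum_congr rfl fun l hl => ?_
      have := (hp l (mem_filter.1 hl).1).ne'
      field_simp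
  | insert c T hcT ih =>
    intro hT y hy
    have hcC : c ∈ C0 := hT (mem_insert_self _ _)
    have hTC : T ⊆ C0 := (subset_insert _ _).trans hT
    have hcardT : T.card < R0.card := by
      rw [hcard]
      have := card_le_card hT
      rw [card_insert_of_notMem hcT] at this
      omega
    set Sc := S.filter (fun l => fc l = c) with hSc
    set S' := S.filter (fun l => ¬ fc l = c) with hS'
    have hsplit : ∀ f : L → ℝ, ∏ l ∈ S, f l = (∏ l ∈ Sc, f l) * ∏ l ∈ S', f l := fun f =>
      (Finset.prod_filter_mul_prod_filter_not S (fun l => fc l = c) f).symm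
    have hK := step (a := ent S fr fc) (ℓ := lin S fr fc (insert c T) y) (T := T) (A := R0)
      hcardT (fun r c => Nat.cast_nonneg _) (fun r => sum_nonneg fun l _ => (hy l).le) fr Sc
      (fun l hl => hfr l (mem_filter.1 hl).1) p (fun l hl => hp l (mem_filter.1 hl).1)
      (fun l hl => hp1 l (mem_filter.1 hl).1) (hcol c hcC)
      (K := (∏ l ∈ Sc, (1 / p l) ^ p l) * ∏ l ∈ S', wt fc p (insert c T) y l) (by
        intro u hu
        have h1 := ih hTC (fun l => if fc l = c then u l else y l)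
          (fun l => by split; exacts [hu l, hy l])
        have h2 : lin S fr fc T (fun l => if fc l = c then u l else y l) =
            addS (lin S fr fc (insert c T) y) fr u Sc := by
          funext r
          unfold lin addS
          rw [← Finset.sum_filter_add_sum_filter_not (S.filter (fun l => fr l = r ∧ fc l ∉ T))
            (fun l => fc l = c), add_comm]
          congr 1
          · rw [Finset.filter_filter]
            have h3 : (S.filter fun l => (fr l = r ∧ fc l ∉ T) ∧ ¬ fc l = c) =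
                S.filter fun l => fr l = r ∧ fc l ∉ insert c T := by
              refine filter_congr fun l _ => ?_
              rw [mem_insert]; tauto
            rw [h3]
            refine sum_congr rfl fun l hl => ?_
            rw [if_neg]
            rw [mem_filter, mem_insert] at hl
            tauto
          · rw [Finset.filter_filter, hSc, Finset.filter_filter]
            have h3 : (S.filter fun l => (fr l = r ∧ fc l ∉ T) ∧ fc l = c) =
                S.filter fun l => fc l = c ∧ fr l = r := by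
              refine filter_congr fun l _ => ?_
              constructor
              · rintro ⟨⟨h4, _⟩, h5⟩; exact ⟨h5, h4⟩
              · rintro ⟨h4, h5⟩; exact ⟨⟨h5, by rw [h4]; exact hcT⟩, h4⟩
            rw [h3]
            refine sum_congr rfl fun l hl => ?_
            rw [if_pos (mem_filter.1 hl).2.1]
        rw [h2] at h1
        refine le_trans (le_of_eq ?_) h1
        rw [hsplit]
        have h5 : ∏ l ∈ S', wt fc p T (fun l => if fc l = c then u l else y l) l =
            ∏ l ∈ S', wt fc p (insert c T) y l := by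
          refine prod_congr rfl fun l hl => ?_
          have hlc : ¬ fc l = c := (mem_filter.1 hl).2
          unfold wt
          simp only [mem_insert, hlc, false_or, if_false]
        have h6 : ∏ l ∈ Sc, wt fc p T (fun l => if fc l = c then u l else y l) l =
            (∏ l ∈ Sc, (1 / p l) ^ p l) * ∏ l ∈ Sc, u l ^ p l := by
          rw [← prod_mul_distrib]
          refine prod_congr rfl fun l hl => ?_
          have hlc : fc l = c := (mem_filter.1 hl).2
          unfold wt
          rw [if_neg (by rw [hlc]; exact hcT)]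
          beta_reduce
          rw [if_pos hlc, Real.mul_rpow (hu l).le
            (one_div_nonneg.2 (hp l (mem_filter.1 hl).1).le), mul_comm]
        rw [h5, h6]
        ring)
    rw [P_insert _ _ hcT]
    have h7 : ∑ l ∈ Sc, P (ent S fr fc) (lin S fr fc (insert c T) y) T (R0.erase (fr l)) =
        ∑ r ∈ R0, ent S fr fc r c * P (ent S fr fc) (lin S fr fc (insert c T) y) T (R0.erase r) := by
      rw [← Finset.sum_fiberwise_of_maps_to (s := Sc) (t := R0) (g := fr)
        (fun l hl => hfr l (mem_filter.1 hl).1)]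
      refine sum_congr rfl fun r hr => ?_
      have h8 : ∀ l ∈ Sc.filter (fun l => fr l = r),
          P (ent S fr fc) (lin S fr fc (insert c T) y) T (R0.erase (fr l)) =
          P (ent S fr fc) (lin S fr fc (insert c T) y) T (R0.erase r) := by
        intro l hl; rw [(mem_filter.1 hl).2]
      rw [sum_congr rfl h8, sum_const, nsmul_eq_mul, ent, hSc, Finset.filter_filter]
      congr 3
      exact filter_congr fun l _ => and_comm
    rw [← h7]
    refine le_trans (le_of_eq ?_) hK
    rw [hsplit]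
    have h9 : ∏ l ∈ Sc, wt fc p (insert c T) y l =
        (∏ l ∈ Sc, (1 / p l) ^ p l) * ∏ l ∈ Sc, (1 - p l) ^ (1 - p l) := by
      rw [← prod_mul_distrib]
      refine prod_congr rfl fun l hl => ?_
      have hlc : fc l = c := (mem_filter.1 hl).2
      unfold wt
      rw [if_pos (by rw [hlc]; exact mem_insert_self _ _)]
    rw [h9]
    ring

/-- The number of perfect systems of links is at least its Bethe value. -/
theorem PM_bethe (S : Finset L) (fr : L → ρ) (fc : L → γ) (p : L → ℝ) (hp : ∀ l ∈ S, 0 < p l)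
    (hp1 : ∀ l ∈ S, p l < 1) (R0 : Finset ρ) (C0 : Finset γ)
    (hrow : ∀ r ∈ R0, ∑ l ∈ S.filter (fun l => fr l = r), p l = 1)
    (hcol : ∀ c ∈ C0, ∑ l ∈ S.filter (fun l => fc l = c), p l = 1)
    (hfr : ∀ l ∈ S, fr l ∈ R0) (hfc : ∀ l ∈ S, fc l ∈ C0) :
    R0.card = C0.card ∧
    ∏ l ∈ S, ((1 / p l) ^ p l * (1 - p l) ^ (1 - p l)) ≤
      ((PM S fr fc C0.toList R0).card : ℝ) := by
  have hcard : R0.card = C0.card := by
    have h1 : ∑ l ∈ S, p l = R0.card := by
      rw [← Finset.sum_fiberwise_of_maps_to hfr, sum_congr rfl hrow]; simp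
    have h2 : ∑ l ∈ S, p l = C0.card := by
      rw [← Finset.sum_fiberwise_of_maps_to hfc, sum_congr rfl hcol]; simp
    exact_mod_cast h1.symm.trans h2
  refine ⟨hcard, ?_⟩
  have h := bethe_aux S fr fc p hp hp1 R0 C0 hrow hcol hfr hcard C0 subset_rfl (fun _ => 1)
    (fun _ => one_pos)
  have h1 : ∏ l ∈ S, wt fc p C0 (fun _ => 1) l =
      ∏ l ∈ S, ((1 / p l) ^ p l * (1 - p l) ^ (1 - p l)) :=
    prod_congr rfl fun l hl => by rw [wt, if_pos (hfc l hl)]
  rw [h1] at h
  refine h.trans ?_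
  have h0 : ∀ r, lin S fr fc C0 (fun _ => 1) r = 0 := by
    intro r
    unfold lin
    refine sum_eq_zero fun l hl => ?_
    rw [mem_filter] at hl
    exact absurd (hfc l hl.1) hl.2.2
  unfold P
  calc M (ent S fr fc) (lin S fr fc C0 fun _ => 1) C0.toList R0
      ≤ M (ent S fr fc) (fun _ => 1) C0.toList R0 :=
        M_mono _ _ (fun r _ c _ => Nat.cast_nonneg _) (fun r _ => (h0 r).ge)
          (fun _ _ _ _ => le_rfl) (fun r _ => by rw [h0 r]; exact zero_le_one)
    _ = ((M (fun r c => (S.filter fun l => fr l = r ∧ fc l = c).card) (fun _ => 1)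
          C0.toList R0 : ℕ) : ℝ) := by
        have := M_map (Nat.castRingHom ℝ) (fun r c => (S.filter fun l => fr l = r ∧ fc l = c).card)
          (fun _ => 1) C0.toList R0
        have he : ent S fr fc = fun r c =>
            ((S.filter fun l => fr l = r ∧ fc l = c).card : ℝ) := rfl
        rw [he]
        simpa using this.symm
    _ ≤ _ := by
        exact_mod_cast M_le_PM S fr fc C0.toList (Finset.nodup_toList _) R0

end Pool.Agent.H66.FY
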