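import Pool.Agent.H66.FY.Bethe

/-!
# Cubic multigraphs: lifts of a nowhere-zero flow modulo k
-/

set_option linter.unusedSectionVars false

namespace Pool.Agent.H66.FY

open Finset
open Pool.Agent.H66.FX (PM mem_PM)

variable {V E : Type*} [Fintype V] [DecidableEq V] [Fintype E] [DecidableEq E]
variable {k : ℕ} [NeZero k]

/-- The value of `g` at a dart, counted away from the end of the dart. -/
def Gd (g : E → ZMod k) (d : E × Bool) : ZMod k := if d.2 then -g d.1 else g d.1

/-- The representative in `{0,…,k-1}` of the value at a dart. -/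
def od (g : E → ZMod k) (d : E × Bool) : ℕ := (Gd g d).val

/-- The other dart of the same edge. -/
def bar (d : E × Bool) : E × Bool := (d.1, !d.2)

@[simp] theorem bar_bar (d : E × Bool) : bar (bar d) = d := by simp [bar]
@[simp] theorem bar_fst (d : E × Bool) : (bar d).1 = d.1 := rfl

/-- The darts at a vertex. -/
def darts (ν : E × Bool → V) (v : V) : Finset (E × Bool) := univ.filter fun d => ν d = v

theorem mem_darts {ν : E × Bool → V} {v : V} {d : E × Bool} : d ∈ darts ν v ↔ ν d = v := by
  simp [darts]

/-- The choices of `g.val` or `g.val - k` on every edge that give an integer flow. -/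
def lifts (ν : E × Bool → V) (g : E → ZMod k) : Finset (E → Bool) :=
  univ.filter fun x => ∀ v, k * ((darts ν v).filter fun d => x d.1 = !d.2).card =
    ∑ d ∈ darts ν v, od g d

theorem Gd_bar (g : E → ZMod k) (d : E × Bool) : Gd g (bar d) = -Gd g d := by
  rcases d with ⟨e, b⟩
  cases b <;> simp [Gd, bar]

theorem val_add_neg {a : ZMod k} (h : a ≠ 0) : a.val + (-a).val = k := by
  rw [ZMod.neg_val, if_neg h]
  have := ZMod.val_lt a
  omega

theorem Gd_ne {g : E → ZMod k} (hg : ∀ e, g e ≠ 0) (d : E × Bool) : Gd g d ≠ 0 := by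
  unfold Gd; split
  · exact neg_ne_zero.2 (hg _)
  · exact hg _

theorem od_pos {g : E → ZMod k} (hg : ∀ e, g e ≠ 0) (d : E × Bool) : 0 < od g d :=
  Nat.pos_of_ne_zero fun h => Gd_ne hg d ((ZMod.val_eq_zero _).1 h)

theorem od_lt (g : E → ZMod k) (d : E × Bool) : od g d < k := ZMod.val_lt _

theorem od_bar {g : E → ZMod k} (hg : ∀ e, g e ≠ 0) (d : E × Bool) :
    od g d + od g (bar d) = k := by
  unfold od; rw [Gd_bar]; exact val_add_neg (Gd_ne hg d)

section Core

variable (ν : E × Bool → V) (g : E → ZMod k)

/-- Class A: the values at the vertex sum to `k`. -/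
def clA (v : V) : Prop := ∑ d ∈ darts ν v, od g d = k

instance : DecidablePred (clA ν g) := fun _ => inferInstanceAs (Decidable (_ = _))

/-- Rows. -/
def rows : Finset (V ⊕ E) := (univ.filter fun v => clA ν g v).disjSum
  (univ.filter fun e => ¬ clA ν g (ν (e, false)) ∧ ¬ clA ν g (ν (e, true)))

/-- Columns. -/
def cols : Finset (V ⊕ E) := (univ.filter fun v => ¬ clA ν g v).disjSum
  (univ.filter fun e => clA ν g (ν (e, false)) ∧ clA ν g (ν (e, true)))

/-- Links. -/
def links : Finset (E × Bool) := univ.filter fun d =>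
  clA ν g (ν d) ∨ (¬ clA ν g (ν d) ∧ ¬ clA ν g (ν (bar d)))

/-- Row of a link. -/
def lr (d : E × Bool) : V ⊕ E := if clA ν g (ν d) then Sum.inl (ν d) else Sum.inr d.1

/-- Column of a link. -/
def lc (d : E × Bool) : V ⊕ E :=
  if clA ν g (ν d) then (if clA ν g (ν (bar d)) then Sum.inr d.1 else Sum.inl (ν (bar d)))
  else Sum.inl (ν d)

/-- The natural number `k` times the probability of a link. -/
def lo (d : E × Bool) : ℕ := if clA ν g (ν d) then od g d else od g (bar d)

theorem bool_cases_bar {d : E × Bool} {e : E} (h : d.1 = e) : d = (e, false) ∨ d = (e, true) := by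
  rcases d with ⟨e', b⟩
  subst h
  cases b <;> simp

theorem both_iff (d : E × Bool) : (clA ν g (ν (d.1, false)) ∧ clA ν g (ν (d.1, true))) ↔
    (clA ν g (ν d) ∧ clA ν g (ν (bar d))) := by
  rcases d with ⟨e, b⟩
  cases b <;> simp [bar, and_comm]

theorem neither_iff (d : E × Bool) : (¬ clA ν g (ν (d.1, false)) ∧ ¬ clA ν g (ν (d.1, true))) ↔
    (¬ clA ν g (ν d) ∧ ¬ clA ν g (ν (bar d))) := by
  rcases d with ⟨e, b⟩
  cases b <;> simp [bar, and_comm]

theorem lr_mem {d : E × Bool} (hd : d ∈ links ν g) : lr ν g d ∈ rows ν g := by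
  simp only [links, mem_filter, mem_univ, true_and] at hd
  unfold lr
  split
  · rename_i h; simp [rows, h]
  · rename_i h
    simp only [rows, mem_filter, mem_univ, true_and, inr_mem_disjSum]
    exact (neither_iff ν g d).2 (hd.resolve_left h)

theorem lc_mem {d : E × Bool} (_hd : d ∈ links ν g) : lc ν g d ∈ cols ν g := by
  unfold lc
  split
  · rename_i h
    split
    · rename_i h'
      simp only [cols, mem_filter, mem_univ, true_and, inr_mem_disjSum]
      exact (both_iff ν g d).2 ⟨h, h'⟩
    · rename_i h'
      simp [cols, h']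
  · rename_i h; simp [cols, h]

/-- Links in the row of a class-A vertex. -/
theorem row_inl {v : V} (hv : clA ν g v) :
    (links ν g).filter (fun l => lr ν g l = Sum.inl v) = darts ν v := by
  ext d
  simp only [mem_filter, links, mem_univ, true_and, mem_darts, lr]
  constructor
  · rintro ⟨_, h⟩
    split at h
    · exact Sum.inl_injective h
    · cases h
  · intro h
    subst h
    simp [hv]

theorem row_inr {e : E} (he : ¬ clA ν g (ν (e, false)) ∧ ¬ clA ν g (ν (e, true))) :
    (links ν g).filter (fun l => lr ν g l = Sum.inr e) = {(e, false), (e, true)} := by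
  ext d
  simp only [mem_filter, links, mem_univ, true_and, lr, mem_insert, mem_singleton]
  constructor
  · rintro ⟨_, h⟩
    split at h
    · cases h
    · exact bool_cases_bar (Sum.inr_injective h)
  · rintro (rfl | rfl) <;> simp [he.1, he.2, bar]

theorem col_inr {e : E} (he : clA ν g (ν (e, false)) ∧ clA ν g (ν (e, true))) :
    (links ν g).filter (fun l => lc ν g l = Sum.inr e) = {(e, false), (e, true)} := by
  ext d
  simp only [mem_filter, links, mem_univ, true_and, lc, mem_insert, mem_singleton]
  constructor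
  · rintro ⟨_, h⟩
    split at h
    · split at h
      · exact bool_cases_bar (Sum.inr_injective h)
      · cases h
    · cases h
  · rintro (rfl | rfl) <;> simp [he.1, he.2, bar]

/-- The link used at a dart of a class-B vertex. -/
def lam (d : E × Bool) : E × Bool := if clA ν g (ν (bar d)) then bar d else d

/-- The link seen from its column. -/
def mu (l : E × Bool) : E × Bool := if clA ν g (ν l) then bar l else l

theorem mem_col_inl {v : V} (hv : ¬ clA ν g v) {l : E × Bool} :
    l ∈ (links ν g).filter (fun l => lc ν g l = Sum.inl v) ↔ l ∈ links ν g ∧ ν (mu ν g l) = v := by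
  rw [mem_filter]
  refine and_congr_right fun hl => ?_
  simp only [links, mem_filter, mem_univ, true_and] at hl
  unfold lc mu
  by_cases h1 : clA ν g (ν l)
  · by_cases h2 : clA ν g (ν (bar l))
    · simp only [h1, h2, if_true]
      constructor
      · intro h; cases h
      · intro h; rw [h] at h2; exact absurd h2 hv
    · simp only [h1, h2, if_true, if_false, Sum.inl.injEq]
  · simp only [h1, if_false, Sum.inl.injEq]

theorem mu_lam {d : E × Bool} (hd : ¬ clA ν g (ν d)) : mu ν g (lam ν g d) = d := by
  unfold mu lam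
  by_cases h : clA ν g (ν (bar d))
  · simp [h]
  · simp [h, hd]

theorem lam_mem {d : E × Bool} (hd : ¬ clA ν g (ν d)) : lam ν g d ∈ links ν g := by
  unfold lam links
  by_cases h : clA ν g (ν (bar d))
  · simp [h]
  · simp [h, hd]

theorem lam_mu {l : E × Bool} (hl : l ∈ links ν g) (_h : ¬ clA ν g (ν (mu ν g l))) :
    lam ν g (mu ν g l) = l := by
  unfold mu
  unfold lam
  simp only [links, mem_filter, mem_univ, true_and] at hl
  by_cases h1 : clA ν g (ν l)
  · simp [h1]
  · simp only [h1, if_false]
    have := (hl.resolve_left h1).2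
    simp [this]

theorem lo_lam {d : E × Bool} (hd : ¬ clA ν g (ν d)) : lo ν g (lam ν g d) = od g (bar d) := by
  unfold lo lam
  by_cases h : clA ν g (ν (bar d))
  · simp [h]
  · simp [h, hd]

theorem sum_col_inl {M' : Type*} [AddCommMonoid M'] {v : V} (hv : ¬ clA ν g v)
    (f : E × Bool → M') : ∑ l ∈ (links ν g).filter (fun l => lc ν g l = Sum.inl v), f l =
      ∑ d ∈ darts ν v, f (lam ν g d) := by
  refine Finset.sum_nbij' (mu ν g) (lam ν g) ?_ ?_ ?_ ?_ ?_
  · intro l hl
    rw [mem_col_inl ν g hv] at hl
    exact mem_darts.2 hl.2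
  · intro d hd
    rw [mem_darts] at hd
    rw [mem_col_inl ν g hv]
    have hd' : ¬ clA ν g (ν d) := by rw [hd]; exact hv
    exact ⟨lam_mem ν g hd', by rw [mu_lam ν g hd', hd]⟩
  · intro l hl
    rw [mem_col_inl ν g hv] at hl
    exact lam_mu ν g hl.1 (by rw [hl.2]; exact hv)
  · intro d hd
    rw [mem_darts] at hd
    exact mu_lam ν g (by rw [hd]; exact hv)
  · intro l hl
    rw [mem_col_inl ν g hv] at hl
    rw [lam_mu ν g hl.1 (by rw [hl.2]; exact hv)]

variable {ν g}

theorem k_pos (k : ℕ) [NeZero k] : (0 : ℝ) < k := Nat.cast_pos.2 (Nat.pos_of_ne_zero (NeZero.ne k))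

theorem PM_cubic (hg : ∀ e, g e ≠ 0) (h3 : ∀ v, (darts ν v).card = 3)
    (hs : ∀ v, ∑ d ∈ darts ν v, od g d = k ∨ ∑ d ∈ darts ν v, od g d = 2 * k) :
    (rows ν g).card = (cols ν g).card ∧
    ∏ l ∈ links ν g, ((1 / ((lo ν g l : ℝ) / k)) ^ ((lo ν g l : ℝ) / k) *
      (1 - (lo ν g l : ℝ) / k) ^ (1 - (lo ν g l : ℝ) / k)) ≤
        ((PM (links ν g) (lr ν g) (lc ν g) (cols ν g).toList (rows ν g)).card : ℝ) := by
  have hk := k_pos k
  refine PM_bethe (links ν g) (lr ν g) (lc ν g) (fun l => (lo ν g l : ℝ) / k) ?_ ?_ (rows ν g)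
    (cols ν g) ?_ ?_ (fun l hl => lr_mem ν g hl) (fun l hl => lc_mem ν g hl)
  · intro l _
    have : 0 < lo ν g l := by
      unfold lo; split <;> exact od_pos hg _
    positivity
  · intro l _
    have h1 : lo ν g l < k := by
      unfold lo; split <;> exact od_lt _ _
    rw [div_lt_one hk]
    exact_mod_cast h1
  · intro r hr
    rw [← Finset.sum_div]
    rcases r with v | e
    · simp only [rows, mem_filter, mem_univ, true_and, inl_mem_disjSum] at hr
      rw [row_inl ν g hr]
      have h1 : ∑ d ∈ darts ν v, (lo ν g d : ℝ) = ((∑ d ∈ darts ν v, od g d : ℕ) : ℝ) := by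
        rw [Nat.cast_sum]
        refine sum_congr rfl fun d hd => ?_
        rw [mem_darts] at hd
        simp [lo, hd, hr]
      rw [h1, hr, div_self hk.ne']
    · simp only [rows, mem_filter, mem_univ, true_and, inr_mem_disjSum] at hr
      rw [row_inr ν g hr, Finset.sum_pair (by simp)]
      have h1 : lo ν g (e, false) = od g (bar (e, false)) := by simp [lo, hr.1]
      have h2 : lo ν g (e, true) = od g (bar (e, true)) := by simp [lo, hr.2]
      have h3 := od_bar hg (bar (e, false))
      rw [bar_bar] at h3
      have h4 : od g (bar (e, false)) + od g (bar (e, true)) = k := h3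
      rw [h1, h2, ← Nat.cast_add, h4, div_self hk.ne']
  · intro c hc
    rw [← Finset.sum_div]
    rcases c with v | e
    · simp only [cols, mem_filter, mem_univ, true_and, inl_mem_disjSum] at hc
      rw [sum_col_inl ν g hc]
      have h10 : ∑ d ∈ darts ν v, od g d = 2 * k := (hs v).resolve_left hc
      have h1 : ∑ d ∈ darts ν v, (lo ν g (lam ν g d) : ℝ) = k := by
        have h2 : ∀ d ∈ darts ν v, (lo ν g (lam ν g d) : ℝ) = k - (od g d : ℝ) := by
          intro d hd
          rw [mem_darts] at hd
          rw [lo_lam ν g (by rw [hd]; exact hc)]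
          have := od_bar hg d
          rw [eq_sub_iff_add_eq, ← Nat.cast_add, add_comm, this]
        rw [sum_congr rfl h2, sum_sub_distrib, sum_const, h3 v, ← Nat.cast_sum, h10]
        push_cast
        simp
        ring
      rw [h1, div_self hk.ne']
    · simp only [cols, mem_filter, mem_univ, true_and, inr_mem_disjSum] at hc
      rw [col_inr ν g hc, Finset.sum_pair (by simp)]
      have h1 : lo ν g (e, false) = od g (e, false) := by simp [lo, hc.1]
      have h2 : lo ν g (e, true) = od g (bar (e, false)) := by simp [lo, hc.2, bar]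
      rw [h1, h2, ← Nat.cast_add, od_bar hg, div_self hk.ne']

/-! ### From link systems to lifts -/

variable (ν g)

/-- A dart is reduced (carries incoming flow). -/
def red (I : Finset (E × Bool)) (d : E × Bool) : Prop :=
  if clA ν g (ν d) then d ∈ I else lam ν g d ∉ I

instance (I : Finset (E × Bool)) : DecidablePred (red ν g I) := fun d => by
  unfold red; infer_instance

/-- The choice of representatives given by a link system. -/
def xI (I : Finset (E × Bool)) (e : E) : Bool := decide (red ν g I (e, false))

variable {ν g}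

theorem PM_row {I : Finset (E × Bool)} (hcard : (rows ν g).card = (cols ν g).card)
    (hI : I ∈ PM (links ν g) (lr ν g) (lc ν g) (cols ν g).toList (rows ν g)) :
    ∀ r ∈ rows ν g, ∃ l ∈ I, lr ν g l = r := by
  rw [mem_PM] at hI
  obtain ⟨_, h1, h2, h3, h4⟩ := hI
  have hc : (cols ν g).card = I.card := by
    apply le_antisymm
    · have : cols ν g ⊆ I.image (lc ν g) := by
        intro c hc
        obtain ⟨l, hl, h⟩ := h2 c (Finset.mem_toList.2 hc)
        exact mem_image.2 ⟨l, hl, h⟩
      exact (card_le_card this).trans card_image_le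
    · exact Finset.card_le_card_of_injOn (lc ν g) (fun l hl => Finset.mem_toList.1 (h1 l hl).1)
        (fun l hl l' hl' h => h3 l hl l' hl' h)
  have him : I.image (lr ν g) = rows ν g := by
    apply Finset.eq_of_subset_of_card_le
    · intro r hr
      obtain ⟨l, hl, rfl⟩ := mem_image.1 hr
      exact (h1 l hl).2
    · rw [hcard, hc, Finset.card_image_of_injOn (fun l hl l' hl' h => h4 l hl l' hl' h)]
  intro r hr
  rw [← him] at hr
  exact mem_image.1 hr

theorem red_bar {I : Finset (E × Bool)} (hcard : (rows ν g).card = (cols ν g).card)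
    (hI : I ∈ PM (links ν g) (lr ν g) (lc ν g) (cols ν g).toList (rows ν g)) (e : E) :
    red ν g I (e, true) ↔ ¬ red ν g I (e, false) := by
  have hrow := PM_row hcard hI
  rw [mem_PM] at hI
  obtain ⟨hIS, h1, h2, h3, h4⟩ := hI
  have hb1 : bar (e, true) = (e, false) := rfl
  have hb2 : bar (e, false) = (e, true) := rfl
  by_cases hf : clA ν g (ν (e, false)) <;> by_cases ht : clA ν g (ν (e, true))
  · simp only [red, hf, ht, if_true]
    have hlc : ∀ b, lc ν g (e, b) = Sum.inr e := by
      intro b; cases b <;> simp [lc, hf, ht, hb1, hb2]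
    constructor
    · intro h h'
      have := h3 _ h _ h' (by rw [hlc, hlc])
      simp at this
    · intro h
      obtain ⟨l, hl, hle⟩ := h2 (Sum.inr e) (Finset.mem_toList.2 (by simp [cols, hf, ht]))
      have hl' : l ∈ (links ν g).filter (fun l => lc ν g l = Sum.inr e) :=
        mem_filter.2 ⟨hIS hl, hle⟩
      rw [col_inr ν g ⟨hf, ht⟩, mem_insert, mem_singleton] at hl'
      rcases hl' with rfl | rfl
      · exact absurd hl h
      · exact hl
  · simp [red, hf, ht, lam, hb1]
  · simp [red, hf, ht, lam, hb2]
  · simp only [red, hf, ht, if_false, lam, hb1, hb2, not_not]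
    have hlr : ∀ b, lr ν g (e, b) = Sum.inr e := by
      intro b; cases b <;> simp [lr, hf, ht]
    constructor
    · intro h
      obtain ⟨l, hl, hle⟩ := hrow (Sum.inr e) (by simp [rows, hf, ht])
      have hl' : l ∈ (links ν g).filter (fun l => lr ν g l = Sum.inr e) :=
        mem_filter.2 ⟨hIS hl, hle⟩
      rw [row_inr ν g ⟨hf, ht⟩, mem_insert, mem_singleton] at hl'
      rcases hl' with rfl | rfl
      · exact hl
      · exact absurd hl h
    · intro h h'
      have := h4 _ h _ h' (by rw [hlr, hlr])
      simp at this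

theorem xI_iff {I : Finset (E × Bool)} (hcard : (rows ν g).card = (cols ν g).card)
    (hI : I ∈ PM (links ν g) (lr ν g) (lc ν g) (cols ν g).toList (rows ν g)) (d : E × Bool) :
    (xI ν g I d.1 = !d.2) ↔ red ν g I d := by
  rcases d with ⟨e, b⟩
  cases b
  · simp [xI]
  · rw [red_bar hcard hI]
    simp [xI]

theorem xI_mem {I : Finset (E × Bool)} (h3' : ∀ v, (darts ν v).card = 3)
    (hs : ∀ v, ∑ d ∈ darts ν v, od g d = k ∨ ∑ d ∈ darts ν v, od g d = 2 * k)
    (hcard : (rows ν g).card = (cols ν g).card)
    (hI : I ∈ PM (links ν g) (lr ν g) (lc ν g) (cols ν g).toList (rows ν g)) :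
    xI ν g I ∈ lifts ν g := by
  have hrow := PM_row hcard hI
  have hx := xI_iff hcard hI
  rw [mem_PM] at hI
  obtain ⟨hIS, h1, h2, h3, h4⟩ := hI
  rw [lifts, mem_filter]
  refine ⟨mem_univ _, fun v => ?_⟩
  have hfil : (darts ν v).filter (fun d => xI ν g I d.1 = !d.2) =
      (darts ν v).filter (fun d => red ν g I d) := filter_congr fun d _ => hx d
  rw [hfil]
  by_cases hv : clA ν g v
  · have hone : ((darts ν v).filter (fun d => red ν g I d)).card = 1 := by
      rw [card_eq_one]
      obtain ⟨l, hl, hle⟩ := hrow (Sum.inl v) (by simp [rows, hv])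
      have hl' : l ∈ (links ν g).filter (fun l => lr ν g l = Sum.inl v) :=
        mem_filter.2 ⟨hIS hl, hle⟩
      rw [row_inl ν g hv, mem_darts] at hl'
      refine ⟨l, ?_⟩
      ext d
      rw [mem_filter, mem_darts, mem_singleton]
      constructor
      · rintro ⟨hd, hr⟩
        have hd' : d ∈ I := by simpa [red, hd, hv] using hr
        exact h4 d hd' l hl (by rw [hle]; simp [lr, hd, hv])
      · rintro rfl
        exact ⟨hl', by simpa [red, hl', hv] using hl⟩
    rw [hone, mul_one]
    exact hv.symm
  · have h10 : ∑ d ∈ darts ν v, od g d = 2 * k := (hs v).resolve_left hv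
    have hone : ((darts ν v).filter (fun d => ¬ red ν g I d)).card = 1 := by
      rw [card_eq_one]
      obtain ⟨l, hl, hle⟩ := h2 (Sum.inl v) (Finset.mem_toList.2 (by simp [cols, hv]))
      have hl' : l ∈ (links ν g).filter (fun l => lc ν g l = Sum.inl v) :=
        mem_filter.2 ⟨hIS hl, hle⟩
      rw [mem_col_inl ν g hv] at hl'
      refine ⟨mu ν g l, ?_⟩
      ext d
      rw [mem_filter, mem_darts, mem_singleton]
      constructor
      · rintro ⟨hd, hr⟩
        have hdA : ¬ clA ν g (ν d) := by rw [hd]; exact hv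
        have hd' : lam ν g d ∈ I := by
          unfold red at hr
          rw [if_neg hdA, not_not] at hr
          exact hr
        have hlc : lc ν g (lam ν g d) = Sum.inl v := by
          have : lam ν g d ∈ (links ν g).filter (fun l => lc ν g l = Sum.inl v) := by
            rw [mem_col_inl ν g hv]
            exact ⟨lam_mem ν g hdA, by rw [mu_lam ν g hdA, hd]⟩
          exact (mem_filter.1 this).2
        have := h3 _ hd' l hl (by rw [hlc, hle])
        rw [← this, mu_lam ν g hdA]
      · rintro rfl
        refine ⟨hl'.2, ?_⟩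
        have hdA : ¬ clA ν g (ν (mu ν g l)) := by rw [hl'.2]; exact hv
        unfold red
        rw [if_neg hdA, not_not, lam_mu ν g hl'.1 hdA]
        exact hl
    have hsum := Finset.card_filter_add_card_filter_not (s := darts ν v)
      (fun d => red ν g I d)
    rw [hone, h3' v] at hsum
    rw [h10]
    have h2 : ((darts ν v).filter (fun d => red ν g I d)).card = 2 := by omega
    rw [h2, mul_comm]

theorem PM_le_lifts (h3' : ∀ v, (darts ν v).card = 3)
    (hs : ∀ v, ∑ d ∈ darts ν v, od g d = k ∨ ∑ d ∈ darts ν v, od g d = 2 * k)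
    (hcard : (rows ν g).card = (cols ν g).card) :
    (PM (links ν g) (lr ν g) (lc ν g) (cols ν g).toList (rows ν g)).card ≤
      (lifts ν g).card := by
  refine Finset.card_le_card_of_injOn (xI ν g) (fun I hI => xI_mem h3' hs hcard hI) ?_
  intro I hI I' hI' h
  have hsub : ∀ J J' : Finset (E × Bool),
      J ∈ PM (links ν g) (lr ν g) (lc ν g) (cols ν g).toList (rows ν g) →
      J' ∈ PM (links ν g) (lr ν g) (lc ν g) (cols ν g).toList (rows ν g) →
      xI ν g J = xI ν g J' → J ⊆ J' := by
    intro J J' hJ hJ' hx l hl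
    have hred : ∀ d, red ν g J d ↔ red ν g J' d := by
      intro d
      rw [← xI_iff hcard hJ, ← xI_iff hcard hJ', hx]
    have hlS : l ∈ links ν g := by
      rw [mem_PM] at hJ; exact hJ.1 hl
    simp only [links, mem_filter, mem_univ, true_and] at hlS
    by_cases hA : clA ν g (ν l)
    · have := (hred l)
      simp only [red, hA, if_true] at this
      exact this.1 hl
    · have hB := (hlS.resolve_left hA).2
      have := (hred l)
      simp only [red, hA, if_false, lam, hB] at this
      by_contra hn
      exact this.2 hn hl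
  exact Subset.antisymm (hsub I I' hI hI' h) (hsub I' I hI' hI h.symm)

end Core

end Pool.Agent.H66.FY
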