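import Pool.Agent.H66.FY.Num

/-!
# All multigraphs: lifts of a nowhere-zero flow modulo k
-/

set_option linter.unusedSectionVars false

namespace Pool.Agent.H66.FY

open Finset

universe u

section Basic

variable {V E : Type*} [Fintype V] [DecidableEq V] [Fintype E] [DecidableEq E]
variable {k : ℕ} [NeZero k]

/-- The integer value at a dart. -/
def Fi (g : E → ZMod k) (x : E → Bool) (d : E × Bool) : ℤ :=
  (od g d : ℤ) - if x d.1 = !d.2 then (k : ℤ) else 0

theorem mem_lifts {ν : E × Bool → V} {g : E → ZMod k} {x : E → Bool} :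
    x ∈ lifts ν g ↔ ∀ v, ∑ d ∈ darts ν v, Fi g x d = 0 := by
  rw [lifts, mem_filter]
  simp only [mem_univ, true_and]
  refine forall_congr' fun v => ?_
  have h1 : ∑ d ∈ darts ν v, Fi g x d = ((∑ d ∈ darts ν v, od g d : ℕ) : ℤ) -
      ((k * ((darts ν v).filter fun d => x d.1 = !d.2).card : ℕ) : ℤ) := by
    unfold Fi
    rw [sum_sub_distrib, ← Finset.sum_filter, sum_const, nsmul_eq_mul]
    push_cast
    ring
  rw [h1, sub_eq_zero, Nat.cast_inj, eq_comm]

theorem Fi_bar {g : E → ZMod k} (hg : ∀ e, g e ≠ 0) (x : E → Bool) (d : E × Bool) :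
    Fi g x (bar d) = -Fi g x d := by
  have h := od_bar hg d
  unfold Fi
  rcases d with ⟨e, b⟩
  have hb : bar (e, b) = (e, !b) := rfl
  rw [hb] at h ⊢
  cases hx : x e <;> cases b <;> simp at h ⊢ <;> omega

/-- The hypotheses on a flow modulo `k`. -/
def Good (ν : E × Bool → V) (g : E → ZMod k) : Prop :=
  (∀ e, g e ≠ 0) ∧ ∀ v, ∑ d ∈ darts ν v, Gd g d = 0

theorem good_mul {m : ZMod k} (hm : ∀ a : ZMod k, a ≠ 0 → m * a ≠ 0) {ν : E × Bool → V}
    {g : E → ZMod k} (h : Good ν g) : Good ν (fun e => m * g e) := by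
  refine ⟨fun e => hm _ (h.1 e), fun v => ?_⟩
  rw [sum_congr rfl (fun d _ => Gd_mul m g d), ← mul_sum, h.2 v, mul_zero]

/-- The bound. -/
def St (c : ℝ) (m : ZMod k) (ν : E × Bool → V) (g : E → ZMod k) : Prop :=
  c ^ (2 * Fintype.card E) ≤
    ((lifts ν g).card : ℝ) * ((lifts ν (fun e => m * g e)).card : ℝ) *
      c ^ (2 * Fintype.card V)

theorem st_of {V1 E1 : Type*} [Fintype V1] [DecidableEq V1] [Fintype E1] [DecidableEq E1]
    {c : ℝ} (hc1 : 1 ≤ c) {m : ZMod k}
    {ν : E × Bool → V} {g : E → ZMod k} {ν1 : E1 × Bool → V1} {g1 : E1 → ZMod k}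
    (hc : Fintype.card E + Fintype.card V1 ≤ Fintype.card E1 + Fintype.card V)
    (h1 : (lifts ν1 g1).card ≤ (lifts ν g).card)
    (h2 : (lifts ν1 (fun e => m * g1 e)).card ≤ (lifts ν (fun e => m * g e)).card)
    (h : St c m ν1 g1) : St c m ν g := by
  have h1' : ((lifts ν1 g1).card : ℝ) ≤ ((lifts ν g).card : ℝ) := by exact_mod_cast h1
  have h2' : ((lifts ν1 (fun e => m * g1 e)).card : ℝ) ≤
    ((lifts ν (fun e => m * g e)).card : ℝ) := by exact_mod_cast h2
  have hNN := mul_le_mul h1' h2' (Nat.cast_nonneg _) (Nat.cast_nonneg _)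
  have hc0 : 0 < c := by linarith
  unfold St at h ⊢
  set N := ((lifts ν g).card : ℝ) * ((lifts ν (fun e => m * g e)).card : ℝ)
  set N1 := ((lifts ν1 g1).card : ℝ) * ((lifts ν1 (fun e => m * g1 e)).card : ℝ)
  have h5 : c ^ (2 * Fintype.card E) * c ^ (2 * Fintype.card V1) ≤
      c ^ (2 * Fintype.card E1) * c ^ (2 * Fintype.card V) := by
    rw [← pow_add, ← pow_add, ← mul_add, ← mul_add]
    exact pow_le_pow_right₀ hc1 (Nat.mul_le_mul_left _ hc)
  have h6 : c ^ (2 * Fintype.card E) * c ^ (2 * Fintype.card V1) ≤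
      (N * c ^ (2 * Fintype.card V)) * c ^ (2 * Fintype.card V1) := by
    calc _ ≤ c ^ (2 * Fintype.card E1) * c ^ (2 * Fintype.card V) := h5
      _ ≤ (N1 * c ^ (2 * Fintype.card V1)) * c ^ (2 * Fintype.card V) :=
          mul_le_mul_of_nonneg_right h (by positivity)
      _ ≤ (N * c ^ (2 * Fintype.card V1)) * c ^ (2 * Fintype.card V) := by
          refine mul_le_mul_of_nonneg_right ?_ (by positivity)
          exact mul_le_mul_of_nonneg_right hNN (by positivity)
      _ = _ := by ring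
  exact le_of_mul_le_mul_right h6 (by positivity)

/-- Weight of a degree. -/
def wd : ℕ → ℕ
  | 0 => 1
  | 1 => 0
  | 2 => 2
  | 3 => 1
  | (n + 4) => 2 * n + 5

/-- The measure of the induction. -/
def WW (ν : E × Bool → V) : ℕ := ∑ v, wd (darts ν v).card

theorem wd_two (d : ℕ) : wd d < wd (d + 2) := by
  rcases d with _ | _ | _ | _ | n
  · decide
  · decide
  · decide
  · decide
  · show 2 * n + 5 < 2 * (n + 2) + 5
    omega

theorem wd_split {d : ℕ} (h : 3 ≤ d) : wd d + 1 < wd (d + 1) := by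
  obtain ⟨n, rfl⟩ := Nat.exists_eq_add_of_le h
  rcases n with _ | n
  · decide
  · have e1 : wd (3 + (n + 1)) = 2 * n + 5 := by
      rw [show 3 + (n + 1) = n + 4 by omega]; rfl
    have e2 : wd (3 + (n + 1) + 1) = 2 * (n + 1) + 5 := by
      rw [show 3 + (n + 1) + 1 = (n + 1) + 4 by omega]; rfl
    rw [e1, e2]; omega

theorem wd_pair {d : ℕ} (h : 2 ≤ d) : wd d + 2 < wd (d + 2) := by
  obtain ⟨n, rfl⟩ := Nat.exists_eq_add_of_le h
  rcases n with _ | _ | n
  · decide
  · decide
  · have e1 : wd (2 + (n + 1 + 1)) = 2 * n + 5 := by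
      rw [show 2 + (n + 1 + 1) = n + 4 by omega]; rfl
    have e2 : wd (2 + (n + 1 + 1) + 2) = 2 * (n + 2) + 5 := by
      rw [show 2 + (n + 1 + 1) + 2 = (n + 2) + 4 by omega]; rfl
    rw [e1, e2]; omega

end Basic

/-! ### Contraction -/

section Contract

variable {V W E : Type*} [Fintype V] [DecidableEq V] [Fintype W] [DecidableEq W]
  [Fintype E] [DecidableEq E]
variable {k : ℕ} [NeZero k]

theorem sum_option_darts {M' : Type*} [AddCommMonoid M'] (ν' : Option E × Bool → W)
    (F' : Option E × Bool → M') (w : W) :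
    ∑ d ∈ darts ν' w, F' d = ((if ν' (none, true) = w then F' (none, true) else 0) +
      (if ν' (none, false) = w then F' (none, false) else 0)) +
      ∑ d : E × Bool, (if ν' (some d.1, d.2) = w then F' (some d.1, d.2) else 0) := by
  rw [darts, sum_filter, Fintype.sum_prod_type, Fintype.sum_option, Fintype.sum_bool,
    Fintype.sum_prod_type]

theorem contract {ν : E × Bool → V} {g : E → ZMod k} {ν' : Option E × Bool → W}
    {g' : Option E → ZMod k} (hg' : ∀ e, g' e ≠ 0) (c : W → V)
    (h1 : ∀ d : E × Bool, c (ν' (some d.1, d.2)) = ν d)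
    (h2 : c (ν' (none, false)) = c (ν' (none, true))) (hgg : ∀ e, g' (some e) = g e)
    {x' : Option E → Bool} (hx : x' ∈ lifts ν' g') : (fun e => x' (some e)) ∈ lifts ν g := by
  rw [mem_lifts] at hx ⊢
  intro v
  have h3 : ∑ d : Option E × Bool, (if c (ν' d) = v then Fi g' x' d else 0) = 0 := by
    have h4 : ∑ w, (if c w = v then ∑ d ∈ darts ν' w, Fi g' x' d else 0) = 0 :=
      sum_eq_zero fun w _ => by rw [hx w]; simp
    refine Eq.trans ?_ h4
    rw [← Finset.sum_fiberwise (s := univ) (g := ν')]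
    refine sum_congr rfl fun w _ => ?_
    by_cases hc : c w = v
    · rw [if_pos hc]
      refine sum_congr rfl fun d hd => ?_
      rw [mem_darts] at hd
      rw [hd, if_pos hc]
    · rw [if_neg hc]
      refine sum_eq_zero fun d hd => ?_
      rw [mem_filter] at hd
      rw [hd.2, if_neg hc]
  rw [Fintype.sum_prod_type, Fintype.sum_option, Fintype.sum_bool, h2] at h3
  have hb : (none, true) = bar ((none, false) : Option E × Bool) := rfl
  have h5 : (if c (ν' (none, true)) = v then Fi g' x' (none, true) else 0) +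
      (if c (ν' (none, true)) = v then Fi g' x' (none, false) else 0) = 0 := by
    split
    · rw [hb, Fi_bar hg']; ring
    · rfl
  rw [h5, zero_add] at h3
  rw [darts, sum_filter, Fintype.sum_prod_type]
  refine Eq.trans ?_ h3
  refine sum_congr rfl fun e _ => sum_congr rfl fun b _ => ?_
  rw [h1 (e, b)]
  have h6 : Fi g (fun e => x' (some e)) (e, b) = Fi g' x' (some e, b) := by
    unfold Fi od Gd
    simp only [hgg]
  rw [h6]

end Contract

/-! ### Splitting off two darts -/

section Split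

variable {V E : Type*} [Fintype V] [DecidableEq V] [Fintype E] [DecidableEq E]
variable {k : ℕ} [NeZero k]

/-- The ends after splitting off `d1`, `d2` from `v0`. -/
def nuS (ν : E × Bool → V) (d1 d2 : E × Bool) (v0 : V) : Option E × Bool → Option V
  | (some e, b) => if (e, b) = d1 ∨ (e, b) = d2 then none else some (ν (e, b))
  | (none, false) => some v0
  | (none, true) => none

/-- The flow after splitting. -/
def gS (g : E → ZMod k) (d1 d2 : E × Bool) : Option E → ZMod k
  | some e => g e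
  | none => Gd g d1 + Gd g d2

variable {ν : E × Bool → V} {d1 d2 : E × Bool} {v0 : V}

theorem sum_split_none {M' : Type*} [AddCommMonoid M'] (h12 : d1 ≠ d2)
    (F' : Option E × Bool → M') :
    ∑ d ∈ darts (nuS ν d1 d2 v0) none, F' d =
      F' (none, true) + (F' (some d1.1, d1.2) + F' (some d2.1, d2.2)) := by
  rw [sum_option_darts]
  have h1 : nuS ν d1 d2 v0 (none, true) = none := rfl
  have h2 : nuS ν d1 d2 v0 (none, false) ≠ none := by simp [nuS]
  rw [if_pos h1, if_neg h2, add_zero]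
  congr 1
  have h3 : ∀ d : E × Bool, (if nuS ν d1 d2 v0 (some d.1, d.2) = none then
      F' (some d.1, d.2) else 0) = if d = d1 ∨ d = d2 then F' (some d.1, d.2) else 0 := by
    rintro ⟨e, b⟩
    by_cases h : (e, b) = d1 ∨ (e, b) = d2 <;> simp [nuS, h]
  rw [sum_congr rfl (fun d _ => h3 d), ← sum_filter]
  have h4 : (univ.filter fun d => d = d1 ∨ d = d2) = {d1, d2} := by ext; simp
  rw [h4, sum_pair h12]

theorem sum_split_some {M' : Type*} [AddCommMonoid M'] (h12 : d1 ≠ d2) (hd1 : ν d1 = v0)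
    (hd2 : ν d2 = v0) (F' : Option E × Bool → M') (v : V) :
    (∑ d ∈ darts (nuS ν d1 d2 v0) (some v), F' d) +
      (if v0 = v then F' (some d1.1, d1.2) + F' (some d2.1, d2.2) else 0) =
      (if v0 = v then F' (none, false) else 0) + ∑ d ∈ darts ν v, F' (some d.1, d.2) := by
  rw [sum_option_darts]
  have h1 : nuS ν d1 d2 v0 (none, true) ≠ some v := by simp [nuS]
  have h2 : nuS ν d1 d2 v0 (none, false) = some v ↔ v0 = v := by simp [nuS]
  rw [if_neg h1, zero_add, add_assoc]
  simp only [h2]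
  congr 1
  have h3 : ∀ d : E × Bool, (if nuS ν d1 d2 v0 (some d.1, d.2) = some v then
      F' (some d.1, d.2) else 0) =
        if ¬ (d = d1 ∨ d = d2) ∧ ν d = v then F' (some d.1, d.2) else 0 := by
    rintro ⟨e, b⟩
    by_cases h : (e, b) = d1 ∨ (e, b) = d2 <;> simp [nuS, h]
  have h5 : (if v0 = v then F' (some d1.1, d1.2) + F' (some d2.1, d2.2) else 0) =
      ∑ d : E × Bool, if (d = d1 ∨ d = d2) ∧ ν d = v then F' (some d.1, d.2) else 0 := by
    rw [← sum_filter]
    by_cases hv : v0 = v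
    · rw [if_pos hv]
      have h4 : (univ.filter fun d => (d = d1 ∨ d = d2) ∧ ν d = v) = {d1, d2} := by
        ext d
        simp only [mem_filter, mem_univ, true_and, mem_insert, mem_singleton]
        constructor
        · exact fun h => h.1
        · rintro (rfl | rfl)
          · exact ⟨Or.inl rfl, hd1.trans hv⟩
          · exact ⟨Or.inr rfl, hd2.trans hv⟩
      rw [h4, sum_pair h12]
    · rw [if_neg hv]
      have h4 : (univ.filter fun d => (d = d1 ∨ d = d2) ∧ ν d = v) = ∅ := by
        rw [Finset.filter_eq_empty_iff]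
        rintro d _ ⟨rfl | rfl, h⟩
        · exact hv (hd1.symm.trans h)
        · exact hv (hd2.symm.trans h)
      rw [h4, sum_empty]
  rw [h5, sum_congr rfl (fun d _ => h3 d), ← sum_add_distrib, darts, sum_filter]
  refine sum_congr rfl fun d _ => ?_
  by_cases ha : d = d1 ∨ d = d2 <;> by_cases hb : ν d = v <;> simp [ha, hb]

theorem good_split {g : E → ZMod k} (h12 : d1 ≠ d2) (hd1 : ν d1 = v0) (hd2 : ν d2 = v0)
    (h : Good ν g) (hb : Gd g d1 + Gd g d2 ≠ 0) : Good (nuS ν d1 d2 v0) (gS g d1 d2) := by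
  refine ⟨?_, ?_⟩
  · rintro (_ | e)
    · exact hb
    · exact h.1 e
  · have hn1 : Gd (gS g d1 d2) (none, true) = -(Gd g d1 + Gd g d2) := rfl
    have hn2 : Gd (gS g d1 d2) (none, false) = Gd g d1 + Gd g d2 := rfl
    have hs : ∀ d : E × Bool, Gd (gS g d1 d2) (some d.1, d.2) = Gd g d := fun d => rfl
    rintro (_ | v)
    · rw [sum_split_none h12, hn1, hs, hs]
      ring
    · have h1 := sum_split_some h12 hd1 hd2 (Gd (gS g d1 d2)) v
      simp only [hs, hn2] at h1
      rw [h.2 v] at h1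
      by_cases hv : v0 = v
      · simp only [if_pos hv] at h1
        linear_combination h1
      · simp only [if_neg hv] at h1
        linear_combination h1

theorem deg_split_none (h12 : d1 ≠ d2) : (darts (nuS ν d1 d2 v0) none).card = 3 := by
  rw [card_eq_sum_ones, sum_split_none h12]
  norm_num

theorem deg_split_some (h12 : d1 ≠ d2) (hd1 : ν d1 = v0) (hd2 : ν d2 = v0) (v : V) :
    (darts (nuS ν d1 d2 v0) (some v)).card + (if v0 = v then 1 else 0) = (darts ν v).card := by
  have h1 := sum_split_some h12 hd1 hd2 (fun _ => (1 : ℕ)) v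
  rw [← card_eq_sum_ones, ← card_eq_sum_ones] at h1
  split at h1 <;> split <;> first | omega | contradiction

theorem lifts_split {g : E → ZMod k} (h12 : d1 ≠ d2) (hd1 : ν d1 = v0) (hd2 : ν d2 = v0)
    (hg' : ∀ e, gS g d1 d2 e ≠ 0) :
    (lifts (nuS ν d1 d2 v0) (gS g d1 d2)).card ≤ (lifts ν g).card := by
  refine Finset.card_le_card_of_injOn (fun x' e => x' (some e)) ?_ ?_
  · intro x' hx'
    refine contract hg' (fun w => w.getD v0) ?_ rfl (fun _ => rfl) hx'
    rintro ⟨e, b⟩
    by_cases h : (e, b) = d1 ∨ (e, b) = d2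
    · rcases h with h | h
      · simp only [nuS, h, true_or, if_true, Option.getD_none, hd1]
      · simp only [nuS, h, or_true, if_true, Option.getD_none, hd2]
    · simp [nuS, h]
  · intro x hx y hy hxy
    rw [Finset.mem_coe, mem_lifts] at hx hy
    have h1 := hx none
    have h2 := hy none
    rw [sum_split_none h12] at h1 h2
    have hs : ∀ d : E × Bool, Fi (gS g d1 d2) x (some d.1, d.2) =
        Fi (gS g d1 d2) y (some d.1, d.2) := by
      intro d
      have := congrFun hxy d.1
      unfold Fi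
      simp only at this ⊢
      rw [this]
    rw [hs, hs] at h1
    have h3 : Fi (gS g d1 d2) x (none, true) = Fi (gS g d1 d2) y (none, true) := by linarith
    have h4 : x none = y none := by
      unfold Fi at h3
      simp only [Bool.not_true] at h3
      have hk0 : (k : ℤ) ≠ 0 := by exact_mod_cast NeZero.ne k
      cases hxn : x none <;> cases hyn : y none <;> simp [hxn, hyn] at h3 ⊢
      · exact hk0 (by omega)
      · exact hk0 (by omega)
    funext e
    rcases e with _ | e
    · exact h4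
    · exact congrFun hxy e

end Split

theorem gS_mul {E : Type*} [Fintype E] [DecidableEq E] {k : ℕ} [NeZero k] (m : ZMod k)
    (g : E → ZMod k) (d1 d2 : E × Bool) :
    gS (fun e => m * g e) d1 d2 = fun e => m * gS g d1 d2 e := by
  funext e
  rcases e with _ | e
  · simp only [gS, Gd_mul]; ring
  · rfl

/-! ### Pairing off two darts of opposite values -/

section Pair

variable {V E : Type*} [Fintype V] [DecidableEq V] [Fintype E] [DecidableEq E]
variable {k : ℕ} [NeZero k]

/-- The darts `d1`, `d2` are moved to a new vertex. -/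
def nuP (ν : E × Bool → V) (d1 d2 : E × Bool) (d : E × Bool) : Option V :=
  if d = d1 ∨ d = d2 then none else some (ν d)

variable {ν : E × Bool → V} {d1 d2 : E × Bool} {v0 : V}

theorem darts_pair_none : darts (nuP ν d1 d2) none = {d1, d2} := by
  ext d
  rw [mem_darts, mem_insert, mem_singleton]
  unfold nuP
  by_cases h : d = d1 ∨ d = d2 <;> simp [h]

theorem sum_pair_some {M' : Type*} [AddCommMonoid M'] (h12 : d1 ≠ d2) (hd1 : ν d1 = v0)
    (hd2 : ν d2 = v0) (F : E × Bool → M') (v : V) :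
    (∑ d ∈ darts (nuP ν d1 d2) (some v), F d) + (if v0 = v then F d1 + F d2 else 0) =
      ∑ d ∈ darts ν v, F d := by
  have h1 : darts (nuP ν d1 d2) (some v) = (darts ν v).filter fun d => ¬ (d = d1 ∨ d = d2) := by
    ext d
    rw [mem_darts, mem_filter, mem_darts]
    unfold nuP
    by_cases h : d = d1 ∨ d = d2
    · simp [h]
    · simp [h]
  have h2 : (if v0 = v then F d1 + F d2 else 0) =
      ∑ d ∈ (darts ν v).filter fun d => (d = d1 ∨ d = d2), F d := by
    by_cases hv : v0 = v
    · rw [if_pos hv]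
      have h4 : ((darts ν v).filter fun d => (d = d1 ∨ d = d2)) = {d1, d2} := by
        ext d
        rw [mem_filter, mem_darts, mem_insert, mem_singleton]
        constructor
        · exact fun h => h.2
        · rintro (rfl | rfl)
          · exact ⟨hd1.trans hv, Or.inl rfl⟩
          · exact ⟨hd2.trans hv, Or.inr rfl⟩
      rw [h4, sum_pair h12]
    · rw [if_neg hv]
      have h4 : ((darts ν v).filter fun d => (d = d1 ∨ d = d2)) = ∅ := by
        rw [Finset.filter_eq_empty_iff]
        rintro d hd (rfl | rfl)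
        · exact hv (hd1.symm.trans (mem_darts.1 hd))
        · exact hv (hd2.symm.trans (mem_darts.1 hd))
      rw [h4, sum_empty]
  rw [h1, h2, add_comm]
  exact Finset.sum_filter_add_sum_filter_not _ _ _

theorem good_pair {g : E → ZMod k} (h12 : d1 ≠ d2) (hd1 : ν d1 = v0) (hd2 : ν d2 = v0)
    (h : Good ν g) (hb : Gd g d1 + Gd g d2 = 0) : Good (nuP ν d1 d2) g := by
  refine ⟨h.1, ?_⟩
  rintro (_ | v)
  · rw [darts_pair_none, sum_pair h12, hb]
  · have h1 := sum_pair_some h12 hd1 hd2 (Gd g) v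
    rw [h.2 v, hb] at h1
    simpa using h1

theorem deg_pair_none (h12 : d1 ≠ d2) : (darts (nuP ν d1 d2) none).card = 2 := by
  rw [darts_pair_none, card_pair h12]

theorem deg_pair_some (h12 : d1 ≠ d2) (hd1 : ν d1 = v0) (hd2 : ν d2 = v0) (v : V) :
    (darts (nuP ν d1 d2) (some v)).card + (if v0 = v then 2 else 0) = (darts ν v).card := by
  have h1 := sum_pair_some h12 hd1 hd2 (fun _ => (1 : ℕ)) v
  rw [← card_eq_sum_ones, ← card_eq_sum_ones] at h1
  exact h1

theorem lifts_pair {g : E → ZMod k} (h12 : d1 ≠ d2) (hd1 : ν d1 = v0) (hd2 : ν d2 = v0)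
    {x : E → Bool} (hx : x ∈ lifts (nuP ν d1 d2) g) :
    x ∈ lifts ν g ∧ Fi g x d2 = -Fi g x d1 := by
  rw [mem_lifts] at hx ⊢
  have h0 := hx none
  rw [darts_pair_none, sum_pair h12] at h0
  refine ⟨fun v => ?_, by linarith⟩
  rw [← sum_pair_some h12 hd1 hd2 (Fi g x) v, hx (some v), h0]
  simp

/-- If all darts at `v0` have the value `k / 2`, then pairing off gives few flows. -/
theorem count_pair {g : E → ZMod k} (hd1 : ν d1 = v0)
    (hh : ∀ d ∈ darts ν v0, 2 * od g d = k) :
    2 * ∑ d2 ∈ (darts ν v0).erase d1, (lifts (nuP ν d1 d2) g).card ≤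
      (darts ν v0).card * (lifts ν g).card := by
  have h1 : ∀ d2 ∈ (darts ν v0).erase d1, (lifts (nuP ν d1 d2) g).card ≤
      ∑ x ∈ lifts ν g, if Fi g x d2 = -Fi g x d1 then 1 else 0 := by
    intro d2 hd2
    rw [← sum_filter, ← card_eq_sum_ones]
    refine card_le_card fun x hx => ?_
    rw [mem_erase, mem_darts] at hd2
    rw [mem_filter]
    exact lifts_pair (Ne.symm hd2.1) hd1 hd2.2 hx
  have h2 : ∀ x ∈ lifts ν g, 2 * ∑ d2 ∈ (darts ν v0).erase d1,
      (if Fi g x d2 = -Fi g x d1 then 1 else 0) ≤ (darts ν v0).card := by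
    intro x hx
    set D := darts ν v0 with hD
    set s := Fi g x d1 with hs
    have hd1D : d1 ∈ D := mem_darts.2 hd1
    have hval : ∀ d ∈ D, Fi g x d = (od g d : ℤ) ∨ Fi g x d = -(od g d : ℤ) := by
      intro d hd
      have := hh d hd
      unfold Fi
      split
      · right; omega
      · left; ring
    have hod : ∀ d ∈ D, (od g d : ℤ) = od g d1 := by
      intro d hd
      have a1 := hh d hd
      have a2 := hh d1 hd1D
      omega
    have hk0 : (k : ℤ) ≠ 0 := by exact_mod_cast NeZero.ne k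
    have hs0 : s ≠ 0 := by
      have a2 := hh d1 hd1D
      rcases hval d1 hd1D with h | h <;> rw [hs, h] <;> omega
    have hdi : ∀ d ∈ D, Fi g x d = s ∨ Fi g x d = -s := by
      intro d hd
      rcases hval d hd with h | h <;> rcases hval d1 hd1D with h' | h' <;>
        rw [hs, h, h', hod d hd] <;> simp
    have hsum := (mem_lifts.1 hx) v0
    rw [← Finset.sum_filter_add_sum_filter_not D (fun d => Fi g x d = -s)] at hsum
    have e1 : ∑ d ∈ D.filter (fun d => Fi g x d = -s), Fi g x d =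
        ((D.filter (fun d => Fi g x d = -s)).card : ℤ) * (-s) := by
      rw [sum_congr rfl (fun d hd => (mem_filter.1 hd).2), sum_const, nsmul_eq_mul]
    have e2 : ∑ d ∈ D.filter (fun d => ¬ Fi g x d = -s), Fi g x d =
        ((D.filter (fun d => ¬ Fi g x d = -s)).card : ℤ) * s := by
      rw [sum_congr rfl (fun d hd =>
        (hdi d (mem_filter.1 hd).1).resolve_right (mem_filter.1 hd).2), sum_const, nsmul_eq_mul]
    rw [e1, e2] at hsum
    have e3 : ((D.filter (fun d => ¬ Fi g x d = -s)).card : ℤ) =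
        ((D.filter (fun d => Fi g x d = -s)).card : ℤ) := by
      have : (((D.filter (fun d => ¬ Fi g x d = -s)).card : ℤ) -
        ((D.filter (fun d => Fi g x d = -s)).card : ℤ)) * s = 0 := by linarith
      exact sub_eq_zero.1 ((mul_eq_zero.1 this).resolve_right hs0)
    have e4 := Finset.card_filter_add_card_filter_not (s := D) (fun d => Fi g x d = -s)
    have e5 : ∑ d2 ∈ D.erase d1, (if Fi g x d2 = -s then 1 else 0) ≤
        (D.filter (fun d => Fi g x d = -s)).card := by
      rw [← sum_filter, ← card_eq_sum_ones]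
      exact card_le_card (filter_subset_filter _ (erase_subset _ _))
    omega
  calc 2 * ∑ d2 ∈ (darts ν v0).erase d1, (lifts (nuP ν d1 d2) g).card
      ≤ 2 * ∑ d2 ∈ (darts ν v0).erase d1, ∑ x ∈ lifts ν g,
          (if Fi g x d2 = -Fi g x d1 then 1 else 0) :=
        Nat.mul_le_mul_left _ (sum_le_sum h1)
    _ = ∑ x ∈ lifts ν g, 2 * ∑ d2 ∈ (darts ν v0).erase d1,
          (if Fi g x d2 = -Fi g x d1 then 1 else 0) := by
        rw [sum_comm, mul_sum]
    _ ≤ ∑ x ∈ lifts ν g, (darts ν v0).card := sum_le_sum h2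
    _ = _ := by rw [sum_const, smul_eq_mul, mul_comm]

theorem num_aux {D SA SB N N' q : ℝ} (hD : 4 ≤ D) (_hSA : 0 ≤ SA) (hSB : 0 ≤ SB) (hN : 0 ≤ N)
    (_hN' : 0 ≤ N') (_hq : 0 ≤ q) (c1 : 2 * SA ≤ D * N) (c2 : 2 * SB ≤ D * N')
    (h : ((D - 1) * q) ^ 2 ≤ SA * SB) : 9 / 4 * q ^ 2 ≤ N * N' := by
  have hprod : (2 * SA) * (2 * SB) ≤ (D * N) * (D * N') :=
    mul_le_mul c1 c2 (by positivity) (by positivity)
  have h10 : 4 * ((D - 1) * q) ^ 2 ≤ D ^ 2 * (N * N') := by
    calc 4 * ((D - 1) * q) ^ 2 ≤ 4 * (SA * SB) := mul_le_mul_of_nonneg_left h (by norm_num)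
      _ = (2 * SA) * (2 * SB) := by ring
      _ ≤ (D * N) * (D * N') := hprod
      _ = _ := by ring
  have h12 : 3 / 2 * D ≤ 2 * (D - 1) := by linarith
  have h13 := pow_le_pow_left₀ (by positivity) h12 2
  have h14 := mul_le_mul_of_nonneg_right h13 (sq_nonneg q)
  have h15 : D ^ 2 * (9 / 4 * q ^ 2) ≤ D ^ 2 * (N * N') := by
    calc D ^ 2 * (9 / 4 * q ^ 2) = (3 / 2 * D) ^ 2 * q ^ 2 := by ring
      _ ≤ (2 * (D - 1)) ^ 2 * q ^ 2 := h14
      _ = 4 * ((D - 1) * q) ^ 2 := by ring
      _ ≤ _ := h10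
  exact le_of_mul_le_mul_left h15 (by positivity)

theorem st_pair {c : ℝ} (hc1 : 1 ≤ c) (hc2 : c ≤ 3 / 2) {m : ZMod k}
    (hm : ∀ a : ZMod k, a ≠ 0 → m * a ≠ 0) {g : E → ZMod k} (hG : Good ν g)
    (hd1 : ν d1 = v0) (h4 : 4 ≤ (darts ν v0).card)
    (hz : ∀ d ∈ darts ν v0, ∀ d' ∈ darts ν v0, d ≠ d' → Gd g d + Gd g d' = 0)
    (hS : ∀ d2 ∈ (darts ν v0).erase d1, St c m (nuP ν d1 d2) g) : St c m ν g := by
  have hhalf : ∀ g' : E → ZMod k, (∀ e, g' e ≠ 0) →
      (∀ d ∈ darts ν v0, ∀ d' ∈ darts ν v0, d ≠ d' → Gd g' d + Gd g' d' = 0) →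
      ∀ d ∈ darts ν v0, 2 * od g' d = k := by
    intro g' hg' hz' d hd
    have hc : 3 ≤ ((darts ν v0).erase d).card := by
      rw [card_erase_of_mem hd]; omega
    obtain ⟨T, hT, hT3⟩ := Finset.exists_subset_card_eq hc
    obtain ⟨a, b, c', hab, hac, hbc, habc⟩ := Finset.card_eq_three.1 hT3
    have ha := mem_erase.1 (hT (by rw [habc]; simp : a ∈ T))
    have hb := mem_erase.1 (hT (by rw [habc]; simp : b ∈ T))
    have h1 := hz' d hd a ha.2 (Ne.symm ha.1)
    have h2 := hz' d hd b hb.2 (Ne.symm hb.1)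
    have h3 := hz' a ha.2 b hb.2 hab
    have h5 : Gd g' d = -Gd g' d := by
      have e1 : Gd g' a = -Gd g' d := (neg_eq_of_add_eq_zero_right h1).symm
      have e2 : Gd g' b = -Gd g' d := (neg_eq_of_add_eq_zero_right h2).symm
      rw [e1, e2] at h3
      have h6 : Gd g' d + Gd g' d = 0 := by linear_combination -h3
      exact eq_neg_of_add_eq_zero_left h6
    have h6 : od g' (bar d) = od g' d := by
      unfold od; rw [Gd_bar, ← h5]
    have := od_bar hg' d
    omega
  have hz2 : ∀ d ∈ darts ν v0, ∀ d' ∈ darts ν v0, d ≠ d' →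
      Gd (fun e => m * g e) d + Gd (fun e => m * g e) d' = 0 := by
    intro d hd d' hd' hne
    rw [Gd_mul, Gd_mul, ← mul_add, hz d hd d' hd' hne, mul_zero]
  have c1 := count_pair (g := g) hd1 (hhalf g hG.1 hz)
  have c2 := count_pair (g := fun e => m * g e) hd1 (hhalf _ (good_mul hm hG).1 hz2)
  have hd1D : d1 ∈ darts ν v0 := mem_darts.2 hd1
  set D := darts ν v0 with hD
  set A : E × Bool → ℝ := fun d2 => ((lifts (nuP ν d1 d2) g).card : ℝ) with hA
  set B : E × Bool → ℝ := fun d2 => ((lifts (nuP ν d1 d2) (fun e => m * g e)).card : ℝ) with hB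
  have c1' : 2 * ∑ d2 ∈ D.erase d1, A d2 ≤ (D.card : ℝ) * ((lifts ν g).card : ℝ) := by
    simp only [hA]
    exact_mod_cast c1
  have c2' : 2 * ∑ d2 ∈ D.erase d1, B d2 ≤
      (D.card : ℝ) * ((lifts ν (fun e => m * g e)).card : ℝ) := by
    simp only [hB]
    exact_mod_cast c2
  have hc0 : 0 < c := by linarith
  unfold St at hS ⊢
  set q : ℝ := c ^ Fintype.card E / c ^ (Fintype.card V + 1) with hq
  have hq0 : 0 < q := by positivity
  have hAB : ∀ d2 ∈ D.erase d1, q ≤ √(A d2) * √(B d2) := by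
    intro d2 hd2
    have h1 := hS d2 hd2
    rw [Fintype.card_option, mul_comm 2 (Fintype.card E), pow_mul,
      mul_comm 2 (Fintype.card V + 1), pow_mul] at h1
    rw [← Real.sqrt_mul (Nat.cast_nonneg _)]
    apply Real.le_sqrt_of_sq_le
    rw [hq, div_pow, div_le_iff₀ (by positivity)]
    exact h1
  have hsum : ((D.card : ℝ) - 1) * q ≤ ∑ d2 ∈ D.erase d1, √(A d2) * √(B d2) := by
    have h1 : ∑ d2 ∈ D.erase d1, q ≤ ∑ d2 ∈ D.erase d1, √(A d2) * √(B d2) := sum_le_sum hAB
    rw [sum_const, card_erase_of_mem hd1D, nsmul_eq_mul, Nat.cast_sub (by omega)] at h1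
    simpa using h1
  have hCS := Finset.sum_mul_sq_le_sq_mul_sq (D.erase d1) (fun d2 => √(A d2)) (fun d2 => √(B d2))
  have e1 : ∑ d2 ∈ D.erase d1, √(A d2) ^ 2 = ∑ d2 ∈ D.erase d1, A d2 :=
    sum_congr rfl fun d2 _ => Real.sq_sqrt (Nat.cast_nonneg _)
  have e2 : ∑ d2 ∈ D.erase d1, √(B d2) ^ 2 = ∑ d2 ∈ D.erase d1, B d2 :=
    sum_congr rfl fun d2 _ => Real.sq_sqrt (Nat.cast_nonneg _)
  rw [e1, e2] at hCS
  have hDc : (4 : ℝ) ≤ (D.card : ℝ) := by exact_mod_cast h4
  have hsum2 : (((D.card : ℝ) - 1) * q) ^ 2 ≤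
      (∑ d2 ∈ D.erase d1, A d2) * ∑ d2 ∈ D.erase d1, B d2 :=
    (pow_le_pow_left₀ (mul_nonneg (by linarith) hq0.le) hsum 2).trans hCS
  have hSA : 0 ≤ ∑ d2 ∈ D.erase d1, A d2 := sum_nonneg fun _ _ => Nat.cast_nonneg _
  have hSB : 0 ≤ ∑ d2 ∈ D.erase d1, B d2 := sum_nonneg fun _ _ => Nat.cast_nonneg _
  have hN0 : 0 ≤ ((lifts ν g).card : ℝ) := Nat.cast_nonneg _
  have hN0' : 0 ≤ ((lifts ν (fun e => m * g e)).card : ℝ) := Nat.cast_nonneg _
  have hq2 : 0 ≤ q ^ 2 := sq_nonneg q
  have h9 : 9 / 4 * q ^ 2 ≤ ((lifts ν g).card : ℝ) * ((lifts ν (fun e => m * g e)).card : ℝ) :=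
    num_aux hDc hSA hSB hN0 hN0' hq0.le c1' c2' hsum2
  generalize ((lifts ν g).card : ℝ) = N at h9 hN0 ⊢
  generalize ((lifts ν (fun e => m * g e)).card : ℝ) = N' at h9 hN0' ⊢
  have h16 : c ^ 2 * q ^ 2 ≤ N * N' := by
    refine le_trans (mul_le_mul_of_nonneg_right ?_ (sq_nonneg q)) h9
    nlinarith
  have h17 : c ^ (2 * Fintype.card E) = (c ^ 2 * q ^ 2) * c ^ (2 * Fintype.card V) := by
    rw [hq, div_pow, ← pow_mul, ← pow_mul, mul_comm (Fintype.card E) 2,
      mul_comm (Fintype.card V + 1) 2, mul_add, pow_add, mul_one]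
    field_simp
  rw [h17]
  exact mul_le_mul_of_nonneg_right h16 (by positivity)

end Pair

/-! ### Deletion of a loop, of an isolated vertex, suppression of a vertex of degree two -/

section Reduce

variable {V E : Type u} [Fintype V] [DecidableEq V] [Fintype E] [DecidableEq E]
variable {k : ℕ} [NeZero k]

theorem sum_e {M' : Type*} [AddCommMonoid M'] (ν : E × Bool → V) (F : E × Bool → M') (v : V) :
    ∑ d ∈ darts ν v, F d = ∑ e, ((if ν (e, true) = v then F (e, true) else 0) +
      (if ν (e, false) = v then F (e, false) else 0)) := by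
  rw [darts, sum_filter, Fintype.sum_prod_type]
  exact sum_congr rfl fun e _ => by rw [Fintype.sum_bool]

/-- Deletion of the edge `e1`. -/
def nuL (ν : E × Bool → V) (e1 : E) : {e : E // e ≠ e1} × Bool → V := fun d => ν (d.1.1, d.2)

theorem sum_loop {M' : Type*} [AddCommMonoid M'] {ν : E × Bool → V} {e1 : E}
    (F : E × Bool → M') (hF : F (e1, true) + F (e1, false) = 0)
    (hl : ν (e1, false) = ν (e1, true)) (v : V) :
    ∑ d ∈ darts ν v, F d = ∑ d ∈ darts (nuL ν e1) v, F (d.1.1, d.2) := by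
  rw [sum_e, sum_e, Fintype.sum_eq_add_sum_subtype_ne _ e1, hl]
  have : (if ν (e1, true) = v then F (e1, true) else 0) +
      (if ν (e1, true) = v then F (e1, false) else 0) = 0 := by
    split
    · exact hF
    · exact add_zero _
  rw [this, zero_add]
  rfl

theorem good_loop {ν : E × Bool → V} {g : E → ZMod k} (h : Good ν g) {e1 : E}
    (hl : ν (e1, false) = ν (e1, true)) :
    Good (nuL ν e1) (fun e => g e.1) := by
  refine ⟨fun e => h.1 e.1, fun v => ?_⟩
  rw [← h.2 v, sum_loop (Gd g) (by simp [Gd]) hl v]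
  rfl

theorem lifts_loop {ν : E × Bool → V} {g : E → ZMod k} (hg : ∀ e, g e ≠ 0) {e1 : E}
    (hl : ν (e1, false) = ν (e1, true)) :
    2 * (lifts (nuL ν e1) (fun e : {e : E // e ≠ e1} => g e.1)).card ≤ (lifts ν g).card := by
  have h1 : 2 * (lifts (nuL ν e1) (fun e : {e : E // e ≠ e1} => g e.1)).card =
      ((lifts (nuL ν e1) (fun e : {e : E // e ≠ e1} => g e.1)) ×ˢ (univ : Finset Bool)).card := by
    rw [card_product, card_univ, Fintype.card_bool, mul_comm]
  rw [h1]
  refine Finset.card_le_card_of_injOn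
    (fun p e => if h : e = e1 then p.2 else p.1 ⟨e, h⟩) ?_ ?_
  · rintro ⟨x1, b⟩ hx
    rw [Finset.mem_coe, mem_product] at hx
    have hx1 := hx.1
    rw [mem_lifts] at hx1
    rw [Finset.mem_coe, mem_lifts]
    intro v
    rw [← hx1 v]
    rw [sum_loop (Fi g _) (by
      have hb : ((e1, true) : E × Bool) = bar (e1, false) := rfl
      rw [hb, Fi_bar hg]; ring) hl v]
    refine sum_congr rfl fun d _ => ?_
    rcases d with ⟨⟨e, he⟩, b'⟩
    simp only [Fi, od, Gd, dif_neg he]
  · rintro ⟨x1, b⟩ _ ⟨x1', b'⟩ _ h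
    have h2 : b = b' := by simpa using congrFun h e1
    have h3 : x1 = x1' := by
      funext e
      rcases e with ⟨e, he⟩
      simpa [he] using congrFun h e
    rw [h2, h3]

theorem card_ne {A : Type*} [Fintype A] [DecidableEq A] (a : A) :
    Fintype.card A = Fintype.card {b : A // b ≠ a} + 1 := by
  have := Fintype.card_subtype_compl (fun b : A => b = a)
  have h3 : Fintype.card {b : A // b ≠ a} = Fintype.card A - 1 := by
    rw [← Fintype.card_subtype_eq a]; exact this
  have h4 : 0 < Fintype.card A := Fintype.card_pos_iff.2 ⟨a⟩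
  omega

theorem st_loop {c : ℝ} (hc1 : 1 ≤ c) (hc2 : c ≤ 3 / 2) {m : ZMod k}
    (hm : ∀ a : ZMod k, a ≠ 0 → m * a ≠ 0) {ν : E × Bool → V} {g : E → ZMod k} (hG : Good ν g)
    {e1 : E} (hl : ν (e1, false) = ν (e1, true))
    (h : St c m (nuL ν e1) (fun e : {e : E // e ≠ e1} => g e.1)) : St c m ν g := by
  have h1 := lifts_loop hG.1 hl
  have h2 := lifts_loop (good_mul hm hG).1 hl
  have h1' : 2 * ((lifts (nuL ν e1) (fun e : {e : E // e ≠ e1} => g e.1)).card : ℝ) ≤
      ((lifts ν g).card : ℝ) := by exact_mod_cast h1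
  have h2' : 2 * ((lifts (nuL ν e1) (fun e : {e : E // e ≠ e1} => m * g e.1)).card : ℝ) ≤
      ((lifts ν (fun e => m * g e)).card : ℝ) := by exact_mod_cast h2
  have hc := card_ne e1
  have hc0 : 0 < c := by linarith
  unfold St at h ⊢
  rw [hc, mul_add, pow_add]
  calc c ^ (2 * Fintype.card {e : E // e ≠ e1}) * c ^ (2 * 1)
      ≤ (((lifts (nuL ν e1) (fun e : {e : E // e ≠ e1} => g e.1)).card : ℝ) *
        ((lifts (nuL ν e1) (fun e : {e : E // e ≠ e1} => m * g e.1)).card : ℝ) *
        c ^ (2 * Fintype.card V)) * 4 :=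
        mul_le_mul h (by rw [mul_one]; nlinarith) (by positivity) (by positivity)
    _ = (2 * ((lifts (nuL ν e1) (fun e : {e : E // e ≠ e1} => g e.1)).card : ℝ)) *
        (2 * ((lifts (nuL ν e1) (fun e : {e : E // e ≠ e1} => m * g e.1)).card : ℝ)) *
        c ^ (2 * Fintype.card V) := by ring
    _ ≤ _ := mul_le_mul_of_nonneg_right (mul_le_mul h1' h2' (by positivity) (by positivity))
        (by positivity)

theorem WW_loop {ν : E × Bool → V} {e1 : E} (hl : ν (e1, false) = ν (e1, true)) :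
    WW (nuL ν e1) < WW ν := by
  have hdeg : ∀ v, (darts ν v).card =
      (darts (nuL ν e1) v).card + if ν (e1, true) = v then 2 else 0 := by
    intro v
    rw [card_eq_sum_ones, card_eq_sum_ones, sum_e, sum_e,
      Fintype.sum_eq_add_sum_subtype_ne _ e1, hl, add_comm]
    congr 1
    split <;> rfl
  unfold WW
  refine sum_lt_sum (fun v _ => ?_) ⟨ν (e1, true), mem_univ _, ?_⟩
  · rw [hdeg v]
    split
    · exact (wd_two _).le
    · exact le_rfl
  · rw [hdeg (ν (e1, true)), if_pos rfl]
    exact wd_two _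

/-- Deletion of an isolated vertex. -/
def nuI (ν : E × Bool → V) {v0 : V} (h : ∀ d, ν d ≠ v0) : E × Bool → {v : V // v ≠ v0} :=
  fun d => ⟨ν d, h d⟩

theorem darts_nuI (ν : E × Bool → V) {v0 : V} (h : ∀ d, ν d ≠ v0) (v : V) (hv : v ≠ v0) :
    darts (nuI ν h) ⟨v, hv⟩ = darts ν v := by
  ext d
  rw [mem_darts, mem_darts]
  exact Subtype.ext_iff

theorem lifts_nuI (ν : E × Bool → V) {v0 : V} (h : ∀ d, ν d ≠ v0) (g : E → ZMod k) :
    (lifts (nuI ν h) g).card ≤ (lifts ν g).card := by
  refine card_le_card fun x hx => ?_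
  rw [mem_lifts] at hx ⊢
  intro v
  by_cases hv : v = v0
  · subst hv
    have : darts ν v = ∅ := by
      ext d; rw [mem_darts]; simp [h d]
    rw [this, sum_empty]
  · rw [← darts_nuI ν h v hv]
    exact hx _

theorem st_iso {c : ℝ} (hc1 : 1 ≤ c) {m : ZMod k} {ν : E × Bool → V} {g : E → ZMod k} {v0 : V}
    (h : ∀ d, ν d ≠ v0) (hS : St c m (nuI ν h) g) : St c m ν g := by
  refine st_of hc1 ?_ (lifts_nuI ν h g) (lifts_nuI ν h _) hS
  have := card_ne v0
  omega

theorem WW_iso {ν : E × Bool → V} {v0 : V} (h : ∀ d, ν d ≠ v0) : WW (nuI ν h) < WW ν := by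
  unfold WW
  rw [Fintype.sum_eq_add_sum_subtype_ne (fun v => wd (darts ν v).card) v0]
  have h0 : darts ν v0 = ∅ := by
    ext d; rw [mem_darts]; simp [h d]
  have h1 : ∑ v : {v : V // v ≠ v0}, wd (darts (nuI ν h) v).card =
      ∑ v : {v : V // v ≠ v0}, wd (darts ν v.1).card :=
    sum_congr rfl fun v _ => by rw [← darts_nuI ν h v.1 v.2]
  rw [h1, h0]
  show _ < wd 0 + _
  have : wd 0 = 1 := rfl
  omega

/-! #### Suppression -/

section Supp

variable {ν : E × Bool → V} {d1 d2 : E × Bool} {v0 : V}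

theorem supp_ne (hD : darts ν v0 = {d1, d2}) {d : {e : E // e ≠ d1.1} × Bool}
    (h : ((d.1.1, d.2) : E × Bool) ≠ d2) : ν (d.1.1, d.2) ≠ v0 := by
  intro hh
  have : ((d.1.1, d.2) : E × Bool) ∈ darts ν v0 := mem_darts.2 hh
  rw [hD, mem_insert, mem_singleton] at this
  rcases this with h1 | h1
  · exact d.1.2 (congrArg Prod.fst h1)
  · exact h h1

/-- Suppression of the vertex `v0` with the darts `d1`, `d2`; the edge of `d1` disappears. -/
def nuD (hD : darts ν v0 = {d1, d2}) (hw : ν (bar d1) ≠ v0) :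
    {e : E // e ≠ d1.1} × Bool → {v : V // v ≠ v0} :=
  fun d => if h : ((d.1.1, d.2) : E × Bool) = d2 then ⟨ν (bar d1), hw⟩
    else ⟨ν (d.1.1, d.2), supp_ne hD h⟩

theorem sum_supp {M' : Type*} [AddCommMonoid M'] (hD : darts ν v0 = {d1, d2})
    (hw : ν (bar d1) ≠ v0) (hne : d2.1 ≠ d1.1) (F : E × Bool → M') (hF : F (bar d1) = F d2)
    (v : V) (hv : v ≠ v0) :
    ∑ d ∈ darts (nuD hD hw) ⟨v, hv⟩, F (d.1.1, d.2) = ∑ d ∈ darts ν v, F d := by
  have hd1 : ν d1 = v0 := mem_darts.1 (by rw [hD]; simp)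
  have hd2 : ν d2 = v0 := mem_darts.1 (by rw [hD]; simp)
  have hbar : ∀ d : E × Bool, d.1 = d1.1 → d = d1 ∨ d = bar d1 := by
    rintro ⟨e, b⟩ h
    rcases d1 with ⟨e1, b1⟩
    simp only at h
    subst h
    cases b <;> cases b1 <;> simp [bar]
  set T : Finset (E × Bool) := univ.filter fun d => d.1 ≠ d1.1 ∧
    (if d = d2 then ν (bar d1) = v else ν d = v) with hT
  have h1 : ∑ d ∈ darts (nuD hD hw) ⟨v, hv⟩, F (d.1.1, d.2) = ∑ d ∈ T, F d := by
    refine Finset.sum_nbij (fun d => (d.1.1, d.2)) ?_ ?_ ?_ ?_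
    · intro d hd
      rw [mem_darts] at hd
      rw [hT, mem_filter]
      refine ⟨mem_univ _, d.1.2, ?_⟩
      by_cases h : ((d.1.1, d.2) : E × Bool) = d2
      · rw [if_pos h]
        rw [nuD, dif_pos h] at hd
        exact congrArg Subtype.val hd
      · rw [if_neg h]
        rw [nuD, dif_neg h] at hd
        exact congrArg Subtype.val hd
    · rintro ⟨⟨e, he⟩, b⟩ _ ⟨⟨e', he'⟩, b'⟩ _ h
      simp only [Prod.mk.injEq] at h
      obtain ⟨rfl, rfl⟩ := h
      rfl
    · intro d hd
      rw [Finset.mem_coe, hT, mem_filter] at hd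
      obtain ⟨-, hd1', hd2'⟩ := hd
      refine ⟨(⟨d.1, hd1'⟩, d.2), ?_, rfl⟩
      rw [Finset.mem_coe, mem_darts]
      by_cases h : d = d2
      · rw [if_pos h] at hd2'
        rw [nuD, dif_pos (by exact h)]
        exact Subtype.ext hd2'
      · rw [if_neg h] at hd2'
        rw [nuD, dif_neg (by exact h)]
        exact Subtype.ext hd2'
    · intro d _; rfl
  rw [h1]
  by_cases hwv : ν (bar d1) = v
  · have hmem : bar d1 ∈ darts ν v := mem_darts.2 hwv
    have hT' : T = insert d2 ((darts ν v).erase (bar d1)) := by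
      ext d
      rw [hT, mem_filter, mem_insert, mem_erase, mem_darts]
      constructor
      · rintro ⟨-, h2, h3⟩
        by_cases h : d = d2
        · exact Or.inl h
        · rw [if_neg h] at h3
          exact Or.inr ⟨fun hh => h2 (by rw [hh]; rfl), h3⟩
      · rintro (rfl | ⟨h2, h3⟩)
        · exact ⟨mem_univ _, hne, by rw [if_pos rfl]; exact hwv⟩
        · refine ⟨mem_univ _, fun hh => ?_, ?_⟩
          · rcases hbar d hh with rfl | h
            · exact hv (h3.symm.trans hd1)
            · exact h2 h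
          · rw [if_neg (fun hh => hv (by rw [← h3, hh, hd2]))]
            exact h3
    have hnm : d2 ∉ (darts ν v).erase (bar d1) := by
      intro hh
      have := mem_darts.1 (mem_of_mem_erase hh)
      exact hv (this.symm.trans hd2)
    rw [hT', sum_insert hnm, ← hF, Finset.add_sum_erase _ _ hmem]
  · have hT' : T = darts ν v := by
      ext d
      rw [hT, mem_filter, mem_darts]
      constructor
      · rintro ⟨-, h2, h3⟩
        by_cases h : d = d2
        · rw [if_pos h] at h3; exact absurd h3 hwv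
        · rw [if_neg h] at h3; exact h3
      · intro h3
        refine ⟨mem_univ _, fun hh => ?_, ?_⟩
        · rcases hbar d hh with rfl | h
          · exact hv (h3.symm.trans hd1)
          · exact hwv (by rw [← h]; exact h3)
        · rw [if_neg (fun hh => hv (by rw [← h3, hh, hd2]))]
          exact h3
    rw [hT']

theorem supp_neg {g : E → ZMod k} (hG : Good ν g) (hD : darts ν v0 = {d1, d2}) (h12 : d1 ≠ d2) :
    Gd g d2 = -Gd g d1 := by
  have := hG.2 v0
  rw [hD, sum_pair h12] at this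
  exact (neg_eq_of_add_eq_zero_right this).symm

theorem good_supp {g : E → ZMod k} (hG : Good ν g) (hD : darts ν v0 = {d1, d2}) (h12 : d1 ≠ d2)
    (hw : ν (bar d1) ≠ v0) (hne : d2.1 ≠ d1.1) :
    Good (nuD hD hw) (fun e => g e.1) := by
  refine ⟨fun e => hG.1 e.1, fun w => ?_⟩
  rcases w with ⟨v, hv⟩
  rw [← hG.2 v, ← sum_supp hD hw hne (Gd g) (by rw [Gd_bar, supp_neg hG hD h12]) v hv]
  rfl

theorem lifts_supp {g : E → ZMod k} (hG : Good ν g) (hD : darts ν v0 = {d1, d2}) (h12 : d1 ≠ d2)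
    (hw : ν (bar d1) ≠ v0) (hne : d2.1 ≠ d1.1) :
    (lifts (nuD hD hw) (fun e : {e : E // e ≠ d1.1} => g e.1)).card ≤ (lifts ν g).card := by
  refine Finset.card_le_card_of_injOn
    (fun x1 e => if h : e = d1.1 then (if x1 ⟨d2.1, hne⟩ = !d2.2 then d1.2 else !d1.2)
      else x1 ⟨e, h⟩) ?_ ?_
  · intro x1 hx1
    rw [Finset.mem_coe, mem_lifts] at hx1 ⊢
    set x : E → Bool := fun e => if h : e = d1.1 then
      (if x1 ⟨d2.1, hne⟩ = !d2.2 then d1.2 else !d1.2) else x1 ⟨e, h⟩ with hx
    have hsum : Fi g x d1 + Fi g x d2 = 0 := by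
      have hxd1 : x d1.1 = if x1 ⟨d2.1, hne⟩ = !d2.2 then d1.2 else !d1.2 := by
        simp only [hx, dif_pos]
      have hxd2 : x d2.1 = x1 ⟨d2.1, hne⟩ := by
        simp only [hx, dif_neg hne]
      have hod : od g d1 + od g d2 = k := by
        unfold od
        rw [supp_neg hG hD h12]
        exact val_add_neg (Gd_ne hG.1 d1)
      unfold Fi
      rw [hxd1, hxd2]
      by_cases hc : x1 ⟨d2.1, hne⟩ = !d2.2
      · rw [if_pos hc]
        have : ¬ (d1.2 = !d1.2) := by cases d1.2 <;> simp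
        rw [if_neg this, if_pos hc]
        omega
      · rw [if_neg hc, if_pos rfl, if_neg hc]
        omega
    intro v
    by_cases hv : v = v0
    · subst hv
      rw [hD, sum_pair h12, hsum]
    · rw [← sum_supp hD hw hne (Fi g x) (by rw [Fi_bar hG.1]; linarith) v hv]
      rw [← hx1 ⟨v, hv⟩]
      refine sum_congr rfl fun d _ => ?_
      rcases d with ⟨⟨e, he⟩, b'⟩
      simp only [Fi, od, Gd, hx, dif_neg he]
  · intro x1 _ x1' _ h
    funext e
    rcases e with ⟨e, he⟩
    simpa [he] using congrFun h e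

theorem WW_supp (hD : darts ν v0 = {d1, d2}) (h12 : d1 ≠ d2)
    (hw : ν (bar d1) ≠ v0) (hne : d2.1 ≠ d1.1) : WW (nuD hD hw) < WW ν := by
  unfold WW
  rw [Fintype.sum_eq_add_sum_subtype_ne (fun v => wd (darts ν v).card) v0]
  have h0 : (darts ν v0).card = 2 := by rw [hD, card_pair h12]
  have h1 : ∑ v : {v : V // v ≠ v0}, wd (darts (nuD hD hw) v).card =
      ∑ v : {v : V // v ≠ v0}, wd (darts ν v.1).card := by
    refine sum_congr rfl fun v _ => ?_
    have := sum_supp hD hw hne (fun _ => (1 : ℕ)) rfl v.1 v.2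
    rw [← card_eq_sum_ones, ← card_eq_sum_ones] at this
    rw [this]
  rw [h1, h0]
  have : wd 2 = 2 := rfl
  omega

theorem st_supp {c : ℝ} (hc1 : 1 ≤ c) {m : ZMod k} (hm : ∀ a : ZMod k, a ≠ 0 → m * a ≠ 0)
    {g : E → ZMod k} (hG : Good ν g) (hD : darts ν v0 = {d1, d2}) (h12 : d1 ≠ d2)
    (hw : ν (bar d1) ≠ v0) (hne : d2.1 ≠ d1.1)
    (hS : St c m (nuD hD hw) (fun e : {e : E // e ≠ d1.1} => g e.1)) : St c m ν g := by
  refine st_of hc1 ?_ (lifts_supp hG hD h12 hw hne) (lifts_supp (good_mul hm hG) hD h12 hw hne) hS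
  have h1 := card_ne v0
  have h2 := card_ne d1.1
  omega

end Supp

end Reduce

/-! ### The general bound -/

/-- The cubic case as a hypothesis. -/
def Cub (k : ℕ) [NeZero k] (c : ℝ) (m : ZMod k) : Prop :=
  ∀ (V E : Type u) [Fintype V] [DecidableEq V] [Fintype E] [DecidableEq E]
    (ν : E × Bool → V) (g : E → ZMod k), Good ν g → (∀ v, (darts ν v).card = 3) →
    c ^ (Fintype.card V) ≤ ((lifts ν g).card : ℝ) * ((lifts ν (fun e => m * g e)).card : ℝ)

theorem general {k : ℕ} [NeZero k] {c : ℝ} (hc1 : 1 ≤ c) (hc2 : c ≤ 3 / 2) {m : ZMod k}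
    (hm : ∀ a : ZMod k, a ≠ 0 → m * a ≠ 0) (hcub : Cub.{u} k c m) (n : ℕ) :
    ∀ (V E : Type u) [Fintype V] [DecidableEq V] [Fintype E] [DecidableEq E]
    (ν : E × Bool → V) (g : E → ZMod k), Good ν g → WW ν = n → St c m ν g := by
  induction n using Nat.strong_induction_on with
  | _ n ih =>
    intro V E _ _ _ _ ν g hG hn
    by_cases hloop : ∃ e1, ν (e1, false) = ν (e1, true)
    · obtain ⟨e1, hl⟩ := hloop
      have hW := WW_loop hl
      exact st_loop hc1 hc2 hm hG hl (ih _ (by omega) V _ (nuL ν e1) _ (good_loop hG hl) rfl)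
    by_cases hiso : ∃ v0, ∀ d, ν d ≠ v0
    · obtain ⟨v0, h⟩ := hiso
      have hW := WW_iso h
      refine st_iso hc1 h (ih _ ?_ {v : V // v ≠ v0} E (nuI ν h) g ?_ rfl)
      · omega
      · refine ⟨hG.1, fun w => ?_⟩
        rcases w with ⟨v, hv⟩
        rw [darts_nuI]
        exact hG.2 v
    by_cases hdeg : ∃ v0, (darts ν v0).card < 3
    · obtain ⟨v0, h⟩ := hdeg
      have h0 : (darts ν v0).card ≠ 0 := by
        intro h0
        rw [Finset.card_eq_zero] at h0
        exact hiso ⟨v0, fun d hd => by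
          have : d ∈ darts ν v0 := mem_darts.2 hd
          rw [h0] at this; exact notMem_empty _ this⟩
      have h1 : (darts ν v0).card ≠ 1 := by
        intro h1
        obtain ⟨d, hd⟩ := Finset.card_eq_one.1 h1
        have := hG.2 v0
        rw [hd, sum_singleton] at this
        exact Gd_ne hG.1 d this
      have h2 : (darts ν v0).card = 2 := by omega
      obtain ⟨d1, d2, h12, hD⟩ := Finset.card_eq_two.1 h2
      have hd1 : ν d1 = v0 := mem_darts.1 (by rw [hD]; simp)
      have hd2 : ν d2 = v0 := mem_darts.1 (by rw [hD]; simp)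
      have hnl : ∀ d : E × Bool, ν (bar d) ≠ ν d := by
        rintro ⟨e, b⟩ hh
        apply hloop
        refine ⟨e, ?_⟩
        cases b
        · exact hh.symm
        · exact hh
      have hw : ν (bar d1) ≠ v0 := by rw [← hd1]; exact hnl d1
      have hne : d2.1 ≠ d1.1 := by
        intro hh
        have : d2 = d1 ∨ d2 = bar d1 := by
          rcases d1 with ⟨e1, b1⟩
          rcases d2 with ⟨e2, b2⟩
          simp only at hh
          subst hh
          cases b1 <;> cases b2 <;> simp [bar]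
        rcases this with rfl | h
        · exact h12 rfl
        · exact hw (by rw [← h]; exact hd2)
      have hW := WW_supp hD h12 hw hne
      exact st_supp hc1 hm hG hD h12 hw hne (ih _ (by omega) _ _ (nuD hD hw) _
        (good_supp hG hD h12 hw hne) rfl)
    push Not at hdeg
    by_cases h4 : ∃ v0, 4 ≤ (darts ν v0).card
    · obtain ⟨v0, h4⟩ := h4
      by_cases hz : ∀ d ∈ darts ν v0, ∀ d' ∈ darts ν v0, d ≠ d' → Gd g d + Gd g d' = 0
      · -- all darts have the value k / 2
        obtain ⟨d1, hd1⟩ := Finset.card_pos.1 (show 0 < (darts ν v0).card by omega)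
        have hd1' : ν d1 = v0 := mem_darts.1 hd1
        refine st_pair hc1 hc2 hm hG hd1' h4 hz fun d2 hd2 => ?_
        rw [mem_erase] at hd2
        have hd2' : ν d2 = v0 := mem_darts.1 hd2.2
        have h12 : d1 ≠ d2 := Ne.symm hd2.1
        refine ih _ ?_ (Option V) E (nuP ν d1 d2) g
          (good_pair h12 hd1' hd2' hG (hz d1 hd1 d2 hd2.2 h12)) rfl
        rw [← hn]
        unfold WW
        rw [Fintype.sum_option, deg_pair_none h12]
        have hle : ∀ v ∈ (univ : Finset V), wd (darts (nuP ν d1 d2) (some v)).card +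
            (if v0 = v then 3 else 0) ≤ wd (darts ν v).card := by
          intro v _
          have h5 := deg_pair_some h12 hd1' hd2' v
          by_cases hv : v0 = v
          · subst hv
            rw [if_pos rfl] at h5 ⊢
            have h6 : 2 ≤ (darts (nuP ν d1 d2) (some v0)).card := by omega
            have := wd_pair h6
            rw [h5] at this
            omega
          · rw [if_neg hv, add_zero] at h5 ⊢
            rw [h5]
        have h7 := sum_le_sum hle
        rw [sum_add_distrib, sum_ite_eq, if_pos (mem_univ _)] at h7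
        have : wd 2 = 2 := rfl
        omega
      · push Not at hz
        obtain ⟨d1, hd1, d2, hd2, h12, hb⟩ := hz
        rw [mem_darts] at hd1 hd2
        have hG' := good_split h12 hd1 hd2 hG hb
        have hb2 : Gd (fun e => m * g e) d1 + Gd (fun e => m * g e) d2 ≠ 0 := by
          rw [Gd_mul, Gd_mul, ← mul_add]
          exact hm _ hb
        have hG2' := good_split h12 hd1 hd2 (good_mul hm hG) hb2
        refine st_of hc1 (ν1 := nuS ν d1 d2 v0) (g1 := gS g d1 d2) ?_
          (lifts_split h12 hd1 hd2 hG'.1) ?_ ?_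
        · rw [Fintype.card_option, Fintype.card_option]; omega
        · rw [← gS_mul]
          exact lifts_split h12 hd1 hd2 hG2'.1
        · refine ih _ ?_ (Option V) (Option E) (nuS ν d1 d2 v0) (gS g d1 d2) hG' rfl
          rw [← hn]
          unfold WW
          rw [Fintype.sum_option, deg_split_none h12]
          have hle : ∀ v ∈ (univ : Finset V), wd (darts (nuS ν d1 d2 v0) (some v)).card +
              (if v0 = v then 2 else 0) ≤ wd (darts ν v).card := by
            intro v _
            have h5 := deg_split_some (v0 := v0) h12 hd1 hd2 v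
            by_cases hv : v0 = v
            · subst hv
              rw [if_pos rfl] at h5 ⊢
              have h6 : 3 ≤ (darts (nuS ν d1 d2 v0) (some v0)).card := by omega
              have := wd_split h6
              rw [h5] at this
              omega
            · rw [if_neg hv, add_zero] at h5 ⊢
              rw [h5]
          have h7 := sum_le_sum hle
          rw [sum_add_distrib, sum_ite_eq, if_pos (mem_univ _)] at h7
          have : wd 3 = 1 := rfl
          omega
    · push Not at h4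
      have h3 : ∀ v, (darts ν v).card = 3 := fun v => by
        have a1 := hdeg v
        have a2 := h4 v
        omega
      have hm2 : 2 * Fintype.card E = 3 * Fintype.card V := by
        have h6 : ∑ v, (darts ν v).card = Fintype.card (E × Bool) := by
          rw [← Finset.card_univ (α := E × Bool)]
          exact (Finset.card_eq_sum_card_fiberwise (f := ν) (t := univ)
            (fun _ _ => mem_univ _)).symm
        rw [sum_congr rfl (fun v _ => h3 v), sum_const, card_univ, Fintype.card_prod,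
          Fintype.card_bool, smul_eq_mul] at h6
        omega
      have h1 := hcub V E ν g hG h3
      unfold St
      have e1 : 2 * Fintype.card E = Fintype.card V + 2 * Fintype.card V := by omega
      rw [e1, pow_add]
      exact mul_le_mul_of_nonneg_right h1 (by positivity)

end Pool.Agent.H66.FY
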