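import Pool.Agent.H66.FY.General

/-!
# Integer flows, and Sauer–Shelah
-/

set_option linter.unusedSectionVars false

namespace Pool.Agent.H66.FY

open Finset

section Main

variable {V E : Type} [Fintype V] [DecidableEq V] [Fintype E] [DecidableEq E]
variable {k : ℕ} [NeZero k]

/-- The ends of the darts of a multigraph. -/
def nuOf (src dst : E → V) (d : E × Bool) : V := if d.2 then dst d.1 else src d.1

theorem sum_nuOf {M' : Type*} [AddCommMonoid M'] (src dst : E → V) (F : E × Bool → M') (v : V) :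
    ∑ d ∈ darts (nuOf src dst) v, F d =
      ∑ e ∈ univ.filter (fun e => src e = v), F (e, false) +
        ∑ e ∈ univ.filter (fun e => dst e = v), F (e, true) := by
  rw [darts, sum_filter, Fintype.sum_prod_type, sum_filter, sum_filter, ← sum_add_distrib]
  refine sum_congr rfl fun e _ => ?_
  rw [Fintype.sum_bool, add_comm]
  rfl

theorem good_of {src dst : E → V} {g : E → ZMod k} (hg : ∀ e, g e ≠ 0)
    (hf : ∀ v, ∑ e ∈ univ.filter (fun e => src e = v), g e =
      ∑ e ∈ univ.filter (fun e => dst e = v), g e) : Good (nuOf src dst) g := by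
  refine ⟨hg, fun v => ?_⟩
  rw [sum_nuOf]
  have h1 : ∀ e, Gd g (e, false) = g e := fun e => rfl
  have h2 : ∀ e, Gd g (e, true) = - g e := fun e => rfl
  simp only [h1, h2]
  rw [sum_neg_distrib, hf v, add_neg_cancel]

/-- The integer flow of a lift. -/
def fx (g : E → ZMod k) (x : E → Bool) (e : E) : ℤ := Fi g x (e, false)

theorem fx_eq (g : E → ZMod k) (x : E → Bool) (e : E) :
    fx g x e = ((g e).val : ℤ) - if x e = true then (k : ℤ) else 0 := rfl

theorem fx_flow {src dst : E → V} {g : E → ZMod k} (hg : ∀ e, g e ≠ 0) {x : E → Bool}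
    (hx : x ∈ lifts (nuOf src dst) g) (v : V) :
    ∑ e ∈ univ.filter (fun e => src e = v), fx g x e =
      ∑ e ∈ univ.filter (fun e => dst e = v), fx g x e := by
  have h := mem_lifts.1 hx v
  rw [sum_nuOf] at h
  have h2 : ∀ e, Fi g x (e, true) = - fx g x e := fun e => Fi_bar hg x (e, false)
  simp only [h2] at h
  rw [sum_neg_distrib] at h
  exact eq_of_sub_eq_zero (by rw [sub_eq_add_neg]; exact h)

theorem val_bounds {a : ZMod k} (h : a ≠ 0) : 1 ≤ a.val ∧ a.val < k :=
  ⟨Nat.pos_of_ne_zero fun h' => h ((ZMod.val_eq_zero _).1 h'), ZMod.val_lt _⟩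

theorem fx_pos {g : E → ZMod k} (hg : ∀ e, g e ≠ 0) (x : E → Bool) (e : E) :
    0 < fx g x e ↔ x e = false := by
  obtain ⟨h1, h2⟩ := val_bounds (hg e)
  rw [fx_eq]
  generalize (g e).val = j at *
  cases x e <;> simp <;> omega

theorem fx_abs {g : E → ZMod k} (hg : ∀ e, g e ≠ 0) (x : E → Bool) (e : E) :
    1 ≤ |fx g x e| ∧ |fx g x e| < k := by
  obtain ⟨h1, h2⟩ := val_bounds (hg e)
  rw [fx_eq, le_abs, abs_lt]
  generalize (g e).val = j at *
  cases x e <;> simp <;> omega

theorem fx_mod (g : E → ZMod k) (x : E → Bool) (e : E) : ((fx g x e : ℤ) : ZMod k) = g e := by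
  rw [fx_eq]
  cases x e <;> simp

theorem finite_bounded (P : (E → ℤ) → Prop) (b : ℤ) (hP : ∀ f, P f → ∀ e, |f e| ≤ b) :
    Finite {f : E → ℤ // P f} := by
  have h1 : (Set.univ.pi fun _ : E => (Set.Icc (-b) b : Set ℤ)).Finite :=
    Set.Finite.pi fun _ => Set.finite_Icc _ _
  refine Set.Finite.subset h1 ?_
  intro f hf e _
  exact abs_le.1 (hP f hf e)

/-! ### The two bounds in terms of lifts -/

theorem lifts_one (ν : E × Bool → V) (g : E → ZMod k) : lifts ν (fun e => 1 * g e) = lifts ν g := by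
  simp only [one_mul]

theorem cub_k : Cub.{0} k (((k : ℝ) + 1) / k) 1 := by
  intro V E _ _ _ _ ν g hG h3
  have h1 := cubic_k hG.1 h3 hG.2
  rw [lifts_one, ← sq]
  exact h1

theorem cub_five : Cub.{0} 5 (784 / 625) 1 := by
  intro V E _ _ _ _ ν g hG h3
  have h1 := cubic_five hG.1 h3 hG.2
  rw [lifts_one, ← sq]
  exact h1

theorem cub_pair : Cub.{0} 5 (1277 / 1000) 2 := by
  intro V E _ _ _ _ ν g hG h3
  exact cubic_five_pair hG.1 h3 hG.2

theorem St_pos {c : ℝ} (hc : 0 < c) {m : ZMod k} {ν : E × Bool → V} {g : E → ZMod k}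
    (h : St c m ν g) : 1 ≤ (lifts ν g).card := by
  by_contra hcon
  have h0 : (lifts ν g).card = 0 := by omega
  unfold St at h
  rw [h0, Nat.cast_zero, zero_mul, zero_mul] at h
  exact absurd h (not_le.2 (by positivity))

theorem bound_single {c : ℝ} (hc1 : 1 ≤ c) (hc2 : c ≤ 3 / 2) (hcub : Cub.{0} k c 1)
    {ν : E × Bool → V} {g : E → ZMod k} (h : Good ν g) :
    c ^ (Fintype.card E - Fintype.card V) ≤ ((lifts ν g).card : ℝ) := by
  have hc0 : 0 < c := by linarith
  have hS := general hc1 hc2 (fun a ha => by rwa [one_mul]) hcub _ V E ν g h rfl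
  have hpos : (1 : ℝ) ≤ ((lifts ν g).card : ℝ) := by exact_mod_cast St_pos hc0 hS
  by_cases hc : Fintype.card V ≤ Fintype.card E
  · unfold St at hS
    rw [lifts_one, ← sq] at hS
    have h2 : 2 * Fintype.card E = (Fintype.card E - Fintype.card V) * 2 +
        2 * Fintype.card V := by omega
    rw [h2, pow_add, pow_mul] at hS
    have h3 := le_of_mul_le_mul_right hS (by positivity)
    exact le_of_sq_le_sq h3 (by linarith)
  · have h2 : Fintype.card E - Fintype.card V = 0 := by omega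
    rw [h2, pow_zero]
    exact hpos

theorem bound_pair {ν : E × Bool → V} {g : E → ZMod 5} (h : Good ν g) :
    2 * (1277 / 1000 : ℝ) ^ (Fintype.card E - Fintype.card V) ≤
      ((lifts ν g).card : ℝ) + ((lifts ν (fun e => 2 * g e)).card : ℝ) := by
  have hm : ∀ a : ZMod 5, a ≠ 0 → 2 * a ≠ 0 := by decide
  have hS := general (by norm_num) (by norm_num) hm cub_pair _ V E ν g h rfl
  have hS2 := general (by norm_num) (by norm_num) hm cub_pair _ V E ν _ (good_mul hm h) rfl
  have h1 : (1 : ℝ) ≤ ((lifts ν g).card : ℝ) := by exact_mod_cast St_pos (by norm_num) hS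
  have h2 : (1 : ℝ) ≤ ((lifts ν (fun e => 2 * g e)).card : ℝ) := by
    exact_mod_cast St_pos (by norm_num) hS2
  by_cases hc : Fintype.card V ≤ Fintype.card E
  · have h3 := hS
    unfold St at h3
    have h4 : 2 * Fintype.card E = (Fintype.card E - Fintype.card V) * 2 +
        2 * Fintype.card V := by omega
    rw [h4, pow_add, pow_mul] at h3
    have h5 := le_of_mul_le_mul_right h3 (by positivity)
    set a := ((lifts ν g).card : ℝ)
    set b := ((lifts ν (fun e => 2 * g e)).card : ℝ)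
    set c := (1277 / 1000 : ℝ) ^ (Fintype.card E - Fintype.card V)
    have hc0 : 0 ≤ c := by positivity
    have h6 : (2 * c) ^ 2 ≤ (a + b) ^ 2 := by nlinarith [sq_nonneg (a - b)]
    exact le_of_sq_le_sq h6 (by linarith)
  · have h3 : Fintype.card E - Fintype.card V = 0 := by omega
    rw [h3, pow_zero]
    linarith

/-! ### Pointwise bounds -/

theorem part1 {c : ℝ} (hc1 : 1 ≤ c) (hc2 : c ≤ 3 / 2) (hcub : Cub.{0} k c 1)
    {src dst : E → V} {g : E → ZMod k} (hg : ∀ e, g e ≠ 0)
    (hf : ∀ v, ∑ e ∈ univ.filter (fun e => src e = v), g e =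
      ∑ e ∈ univ.filter (fun e => dst e = v), g e) :
    c ^ (Fintype.card E - Fintype.card V) ≤
      (Nat.card {f : E → ℤ // (∀ v, ∑ e ∈ univ.filter (fun e => src e = v), f e =
        ∑ e ∈ univ.filter (fun e => dst e = v), f e) ∧
        ∀ e, |f e| < k ∧ ((f e : ℤ) : ZMod k) = g e} : ℝ) := by
  refine (bound_single hc1 hc2 hcub (good_of hg hf)).trans ?_
  have hfin := finite_bounded (E := E) (fun f => (∀ v, ∑ e ∈ univ.filter (fun e => src e = v), f e =
        ∑ e ∈ univ.filter (fun e => dst e = v), f e) ∧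
        ∀ e, |f e| < k ∧ ((f e : ℤ) : ZMod k) = g e) k (fun f h e => (h.2 e).1.le)
  have h1 : Nat.card (lifts (nuOf src dst) g) ≤ Nat.card {f : E → ℤ //
      (∀ v, ∑ e ∈ univ.filter (fun e => src e = v), f e =
        ∑ e ∈ univ.filter (fun e => dst e = v), f e) ∧
        ∀ e, |f e| < k ∧ ((f e : ℤ) : ZMod k) = g e} := by
    refine Nat.card_le_card_of_injective (fun x => ⟨fx g x.1, fx_flow hg x.2, fun e =>
      ⟨(fx_abs hg x.1 e).2, fx_mod g x.1 e⟩⟩) ?_
    intro x y hxy
    apply Subtype.ext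
    funext e
    have h2 := congrFun (congrArg Subtype.val hxy) e
    simp only at h2
    have h3 := fx_pos hg x.1 e
    have h4 := fx_pos hg y.1 e
    rw [h2] at h3
    have h5 : x.1 e = false ↔ y.1 e = false := h3.symm.trans h4
    cases h6 : x.1 e <;> cases h7 : y.1 e <;> simp [h6, h7] at h5 ⊢
  rw [Nat.card_eq_fintype_card, Fintype.card_coe] at h1
  exact_mod_cast h1

theorem part1_k (hk : 2 ≤ k) {src dst : E → V} {g : E → ZMod k} (hg : ∀ e, g e ≠ 0)
    (hf : ∀ v, ∑ e ∈ univ.filter (fun e => src e = v), g e =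
      ∑ e ∈ univ.filter (fun e => dst e = v), g e) :
    (1 + 1 / (k : ℝ)) ^ (Fintype.card E - Fintype.card V) ≤
      (Nat.card {f : E → ℤ // (∀ v, ∑ e ∈ univ.filter (fun e => src e = v), f e =
        ∑ e ∈ univ.filter (fun e => dst e = v), f e) ∧
        ∀ e, |f e| < k ∧ ((f e : ℤ) : ZMod k) = g e} : ℝ) := by
  have hk0 := k_pos k
  have hk2 : (2 : ℝ) ≤ k := by exact_mod_cast hk
  have e1 : 1 + 1 / (k : ℝ) = ((k : ℝ) + 1) / k := by field_simp
  rw [e1]
  refine part1 ?_ ?_ cub_k hg hf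
  · rw [le_div_iff₀ hk0]; linarith
  · rw [div_le_div_iff₀ hk0 (by norm_num)]; linarith

/-! ### Summation over the flows modulo five -/

/-- The nowhere-zero flows modulo five, as a finset. -/
def mf (src dst : E → V) : Finset (E → ZMod 5) := univ.filter fun g => (∀ e, g e ≠ 0) ∧
  ∀ v, ∑ e ∈ univ.filter (fun e => src e = v), g e = ∑ e ∈ univ.filter (fun e => dst e = v), g e

theorem mem_mf {src dst : E → V} {g : E → ZMod 5} : g ∈ mf src dst ↔ (∀ e, g e ≠ 0) ∧
    ∀ v, ∑ e ∈ univ.filter (fun e => src e = v), g e =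
      ∑ e ∈ univ.filter (fun e => dst e = v), g e := by
  rw [mf, mem_filter]
  exact ⟨fun h => h.2, fun h => ⟨mem_univ _, h⟩⟩

theorem card_mf (src dst : E → V) : Nat.card {φ : E → ZMod 5 // (∀ e, φ e ≠ 0) ∧
      ∀ v, ∑ e ∈ univ.filter (fun e => src e = v), φ e =
        ∑ e ∈ univ.filter (fun e => dst e = v), φ e} = (mf src dst).card := by
  rw [Nat.card_eq_fintype_card, Fintype.card_subtype]
  rfl

theorem mf_mul {src dst : E → V} {g : E → ZMod 5} {c : ZMod 5} (hc : c ≠ 0)
    (hg : g ∈ mf src dst) : (fun e => c * g e) ∈ mf src dst := by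
  rw [mem_mf] at hg ⊢
  refine ⟨fun e => ?_, fun v => ?_⟩
  · have : ∀ a b : ZMod 5, a ≠ 0 → b ≠ 0 → a * b ≠ 0 := by decide
    exact this _ _ hc (hg.1 e)
  · rw [← mul_sum, ← mul_sum, hg.2 v]

theorem sum_two (src dst : E → V) (F : (E → ZMod 5) → ℝ) :
    ∑ g ∈ mf src dst, F (fun e => 2 * g e) = ∑ g ∈ mf src dst, F g := by
  refine Finset.sum_nbij' (fun g e => 2 * g e) (fun g e => 3 * g e) ?_ ?_ ?_ ?_ ?_
  · intro g hg; exact mf_mul (by decide) hg
  · intro g hg; exact mf_mul (by decide) hg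
  · intro g _; funext e
    have : ∀ a : ZMod 5, 3 * (2 * a) = a := by decide
    exact this _
  · intro g _; funext e
    have : ∀ a : ZMod 5, 2 * (3 * a) = a := by decide
    exact this _
  · intro g _; rfl

theorem part2 (src dst : E → V) :
    (1277 / 1000 : ℝ) ^ (Fintype.card E - Fintype.card V) *
      (Nat.card {φ : E → ZMod 5 // (∀ e, φ e ≠ 0) ∧
      ∀ v, ∑ e ∈ univ.filter (fun e => src e = v), φ e =
        ∑ e ∈ univ.filter (fun e => dst e = v), φ e} : ℝ) ≤
      (Nat.card {f : E → ℤ // (∀ v, ∑ e ∈ univ.filter (fun e => src e = v), f e =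
        ∑ e ∈ univ.filter (fun e => dst e = v), f e) ∧ ∀ e, 1 ≤ |f e| ∧ |f e| ≤ 4} : ℝ) := by
  set c := (1277 / 1000 : ℝ) ^ (Fintype.card E - Fintype.card V) with hc
  rw [card_mf]
  have h1 : c * ((mf src dst).card : ℝ) ≤
      ∑ g ∈ mf src dst, ((lifts (nuOf src dst) g).card : ℝ) := by
    have h2 : ∑ g ∈ mf src dst, 2 * c ≤ ∑ g ∈ mf src dst,
        (((lifts (nuOf src dst) g).card : ℝ) +
          ((lifts (nuOf src dst) (fun e => 2 * g e)).card : ℝ)) := by
      refine sum_le_sum fun g hg => ?_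
      rw [mem_mf] at hg
      exact bound_pair (good_of hg.1 hg.2)
    rw [sum_const, nsmul_eq_mul, sum_add_distrib,
      sum_two src dst (fun g => ((lifts (nuOf src dst) g).card : ℝ))] at h2
    linarith
  refine h1.trans ?_
  have hfin := finite_bounded (E := E) (fun f => (∀ v, ∑ e ∈ univ.filter (fun e => src e = v), f e =
        ∑ e ∈ univ.filter (fun e => dst e = v), f e) ∧
        ∀ e, 1 ≤ |f e| ∧ |f e| ≤ 4) 4 (fun f h e => (h.2 e).2)
  have h3 : Nat.card ((mf src dst).sigma fun g => lifts (nuOf src dst) g) ≤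
      Nat.card {f : E → ℤ // (∀ v, ∑ e ∈ univ.filter (fun e => src e = v), f e =
        ∑ e ∈ univ.filter (fun e => dst e = v), f e) ∧ ∀ e, 1 ≤ |f e| ∧ |f e| ≤ 4} := by
    have hmem : ∀ p : ((mf src dst).sigma fun g => lifts (nuOf src dst) g),
        ((∀ e, p.1.1 e ≠ 0) ∧ p.1.2 ∈ lifts (nuOf src dst) p.1.1) := by
      intro p
      have h := mem_sigma.1 p.2
      exact ⟨(mem_mf.1 h.1).1, h.2⟩
    have habs : ∀ p : ((mf src dst).sigma fun g => lifts (nuOf src dst) g), ∀ e,
        1 ≤ |fx p.1.1 p.1.2 e| ∧ |fx p.1.1 p.1.2 e| ≤ 4 := by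
      intro p e
      obtain ⟨h1, h2⟩ := fx_abs (hmem p).1 p.1.2 e
      refine ⟨h1, ?_⟩
      push_cast at h2
      omega
    refine Nat.card_le_card_of_injective (fun p => ⟨fx p.1.1 p.1.2, fx_flow (hmem p).1 (hmem p).2,
      habs p⟩) ?_
    intro p q hpq
    have h2 : ∀ e, fx p.1.1 p.1.2 e = fx q.1.1 q.1.2 e := fun e =>
      congrFun (congrArg Subtype.val hpq) e
    have hg : p.1.1 = q.1.1 := by
      funext e
      rw [← fx_mod p.1.1 p.1.2 e, ← fx_mod q.1.1 q.1.2 e, h2 e]
    have hx : p.1.2 = q.1.2 := by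
      funext e
      have h3 := fx_pos (hmem p).1 p.1.2 e
      have h4 := fx_pos (hmem q).1 q.1.2 e
      rw [h2 e] at h3
      have h5 : p.1.2 e = false ↔ q.1.2 e = false := h3.symm.trans h4
      cases h6 : p.1.2 e <;> cases h7 : q.1.2 e <;> simp [h6, h7] at h5 ⊢
    rcases p with ⟨⟨g, x⟩, hp⟩
    rcases q with ⟨⟨g', x'⟩, hq⟩
    simp only at hg hx
    subst hg
    subst hx
    rfl
  rw [Nat.card_eq_fintype_card, Fintype.card_coe, card_sigma] at h3
  exact_mod_cast h3

/-- A graph with an edge and a nowhere-zero flow modulo five has at least four of them. -/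
theorem four_le (src dst : E → V) (e0 : E) (h : 0 < (mf src dst).card) :
    4 ≤ (mf src dst).card := by
  obtain ⟨g, hg⟩ := Finset.card_pos.1 h
  have h0 := (mem_mf.1 hg).1
  have h4 : (univ.filter fun c : ZMod 5 => c ≠ 0).card = 4 := by decide
  rw [← h4]
  refine Finset.card_le_card_of_injOn (fun c e => c * g e) ?_ ?_
  · intro c hc
    exact mf_mul (mem_filter.1 hc).2 hg
  · intro c _ c' _ hcc
    have h1 := congrFun hcc e0
    have : ∀ a b x : ZMod 5, x ≠ 0 → a * x = b * x → a = b := by decide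
    exact this _ _ _ (h0 e0) h1

/-! ### Sauer–Shelah -/

theorem shatter_num : (69 : ℝ) ^ 3 * (70 / 69) ^ 210 < (784 / 625) ^ 70 := by
  norm_num

/-- A family of size at least `(784/625)^(m/3)` on `m` points shatters a set of size `m/70`. -/
theorem exists_shattered (𝒜 : Finset (Finset E))
    (h : (784 / 625 : ℝ) ^ (Fintype.card E) ≤ (𝒜.card : ℝ) ^ 3) :
    ∃ S : Finset E, 𝒜.Shatters S ∧ Fintype.card E ≤ 70 * S.card := by
  by_contra hcon
  push Not at hcon
  have hA : 0 < 𝒜.card := by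
    by_contra h0
    have h0' : 𝒜.card = 0 := by omega
    rw [h0', Nat.cast_zero] at h
    exact absurd h (not_le.2 (by norm_num))
  have hne : 𝒜.shatterer.Nonempty := by
    rw [← Finset.card_pos]
    exact hA.trans_le (Finset.card_le_card_shatterer 𝒜)
  obtain ⟨S, hS, hmax⟩ := Finset.exists_max_image 𝒜.shatterer Finset.card hne
  set m := Fintype.card E with hm
  set j := S.card with hj
  have hjm : 70 * j < m := hcon S (Finset.mem_shatterer.1 hS)
  have h1 : (𝒜.card : ℝ) ≤ 69 ^ j * (70 / 69) ^ m := by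
    calc (𝒜.card : ℝ) ≤ (𝒜.shatterer.card : ℝ) := by
          exact_mod_cast Finset.card_le_card_shatterer 𝒜
      _ = ∑ T ∈ 𝒜.shatterer, (1 : ℝ) := by simp
      _ ≤ ∑ T ∈ 𝒜.shatterer, 69 ^ j * ((1 / 69 : ℝ) ^ T.card * 1 ^ (m - T.card)) := by
          refine sum_le_sum fun T hT => ?_
          have h2 : T.card ≤ j := hmax T hT
          rw [one_pow, mul_one]
          obtain ⟨i, hi⟩ := Nat.exists_eq_add_of_le h2
          rw [hi, pow_add, mul_comm ((69 : ℝ) ^ T.card), mul_assoc, ← mul_pow]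
          norm_num
          exact one_le_pow₀ (by norm_num)
      _ ≤ ∑ T : Finset E, 69 ^ j * ((1 / 69 : ℝ) ^ T.card * 1 ^ (m - T.card)) :=
          sum_le_sum_of_subset_of_nonneg (subset_univ _) (fun _ _ _ => by positivity)
      _ = 69 ^ j * (70 / 69) ^ m := by
          rw [← mul_sum]
          congr 1
          have h3 := Finset.sum_pow_mul_eq_add_pow (1 / 69 : ℝ) 1 (univ : Finset E)
          rw [Finset.powerset_univ, Finset.card_univ] at h3
          have h4 : (1 / 69 + 1 : ℝ) = 70 / 69 := by norm_num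
          rw [h3, h4]
  have hm0 : m ≠ 0 := by omega
  have h2 : ((784 / 625 : ℝ) ^ 70) ^ m ≤ ((69 : ℝ) ^ 3 * (70 / 69) ^ 210) ^ m := by
    calc ((784 / 625 : ℝ) ^ 70) ^ m = ((784 / 625 : ℝ) ^ m) ^ 70 := by
          rw [← pow_mul, ← pow_mul]; congr 1; ring
      _ ≤ ((𝒜.card : ℝ) ^ 3) ^ 70 := pow_le_pow_left₀ (by positivity) h 70
      _ = (𝒜.card : ℝ) ^ 210 := by rw [← pow_mul]
      _ ≤ (69 ^ j * (70 / 69) ^ m) ^ 210 := pow_le_pow_left₀ (by positivity) h1 210
      _ = (69 : ℝ) ^ (210 * j) * ((70 / 69) ^ 210) ^ m := by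
          rw [mul_pow, ← pow_mul, ← pow_mul, ← pow_mul]
          congr 2 <;> ring
      _ ≤ (69 : ℝ) ^ (3 * m) * ((70 / 69) ^ 210) ^ m := by
          refine mul_le_mul_of_nonneg_right ?_ (by positivity)
          exact pow_le_pow_right₀ (by norm_num) (by omega)
      _ = _ := by rw [mul_pow, pow_mul (69 : ℝ)]
  exact absurd h2 (not_le.2 (pow_lt_pow_left₀ shatter_num (by positivity) hm0))

theorem part3 {src dst : E → V} {g : E → ZMod 5} (hg : ∀ e, g e ≠ 0)
    (hf : ∀ v, ∑ e ∈ univ.filter (fun e => src e = v), g e =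
      ∑ e ∈ univ.filter (fun e => dst e = v), g e)
    (hdeg : ∀ v, 3 ≤ (univ.filter (fun e => src e = v)).card +
      (univ.filter (fun e => dst e = v)).card) :
    ∃ S : Finset E, Fintype.card E ≤ 70 * S.card ∧ ∀ T ⊆ S, ∃ f : E → ℤ,
      (∀ v, ∑ e ∈ univ.filter (fun e => src e = v), f e =
        ∑ e ∈ univ.filter (fun e => dst e = v), f e) ∧
      (∀ e, |f e| ≤ 4 ∧ ((f e : ℤ) : ZMod 5) = g e) ∧ ∀ e ∈ S, (0 < f e ↔ e ∈ T) := by
  have hb := bound_single (c := 784 / 625) (by norm_num) (by norm_num) cub_five (good_of hg hf)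
  have hEV : 3 * Fintype.card V ≤ 2 * Fintype.card E := by
    have h6 : ∑ v, (darts (nuOf src dst) v).card = Fintype.card (E × Bool) := by
      rw [← Finset.card_univ (α := E × Bool)]
      exact (Finset.card_eq_sum_card_fiberwise (f := nuOf src dst) (t := univ)
        (fun _ _ => mem_univ _)).symm
    have h7 : ∀ v, 3 ≤ (darts (nuOf src dst) v).card := by
      intro v
      have h8 := sum_nuOf src dst (fun _ => (1 : ℕ)) v
      rw [← card_eq_sum_ones, ← card_eq_sum_ones, ← card_eq_sum_ones] at h8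
      rw [h8]
      exact hdeg v
    have h9 : ∑ _v : V, 3 ≤ ∑ v, (darts (nuOf src dst) v).card := sum_le_sum fun v _ => h7 v
    rw [h6, sum_const, card_univ, Fintype.card_prod, Fintype.card_bool, smul_eq_mul] at h9
    omega
  set F : (E → Bool) → Finset E := fun x => univ.filter fun e => x e = false with hF
  have hFinj : Function.Injective F := by
    intro x y h
    funext e
    have h1 : e ∈ F x ↔ e ∈ F y := by rw [h]
    simp only [hF, mem_filter, mem_univ, true_and] at h1
    cases h6 : x e <;> cases h7 : y e <;> simp [h6, h7] at h1 ⊢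
  obtain ⟨S, hS, hc⟩ := exists_shattered ((lifts (nuOf src dst) g).image F) (by
    rw [Finset.card_image_of_injective _ hFinj]
    calc (784 / 625 : ℝ) ^ (Fintype.card E)
        ≤ (784 / 625 : ℝ) ^ ((Fintype.card E - Fintype.card V) * 3) :=
          pow_le_pow_right₀ (by norm_num) (by omega)
      _ = ((784 / 625 : ℝ) ^ (Fintype.card E - Fintype.card V)) ^ 3 := by rw [pow_mul]
      _ ≤ _ := pow_le_pow_left₀ (by positivity) hb 3)
  refine ⟨S, hc, fun T hT => ?_⟩
  obtain ⟨u, hu, hST⟩ := hS hT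
  obtain ⟨x, hx, rfl⟩ := mem_image.1 hu
  refine ⟨fx g x, fx_flow hg hx, fun e => ⟨?_, fx_mod g x e⟩, fun e he => ?_⟩
  · have := (fx_abs hg x e).2
    push_cast at this
    omega
  rw [fx_pos hg, ← hST, mem_inter]
  simp only [hF, mem_filter, mem_univ, true_and]
  exact ⟨fun h => ⟨he, h⟩, fun h => h.2⟩

end Main

end Pool.Agent.H66.FY
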