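import Pool.Agent.H66.FY.Cubic

/-!
# The numerical bounds for cubic multigraphs
-/

set_option linter.unusedSectionVars false

namespace Pool.Agent.H66.FY

open Finset

variable {V E : Type*} [Fintype V] [DecidableEq V] [Fintype E] [DecidableEq E]
variable {k : ℕ} [NeZero k]

/-- The Bethe factor. -/
noncomputable def en (p : ℝ) : ℝ := (1 / p) ^ p * (1 - p) ^ (1 - p)

theorem en_pos {p : ℝ} (h0 : 0 < p) (h1 : p < 1) : 0 < en p := by
  unfold en
  have : 0 < 1 - p := by linarith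
  positivity

theorem en_mul {p q : ℝ} (h0 : 0 < p) (h1 : 0 < q) (h : p + q = 1) : en p * en q = 1 := by
  have e1 : 1 - p = q := by linarith
  have e2 : 1 - q = p := by linarith
  unfold en
  rw [e1, e2]
  have h2 : (1 / p) ^ p * p ^ p = 1 := by
    rw [← Real.mul_rpow (by positivity) h0.le, one_div_mul_cancel h0.ne', Real.one_rpow]
  have h3 : (1 / q) ^ q * q ^ q = 1 := by
    rw [← Real.mul_rpow (by positivity) h1.le, one_div_mul_cancel h1.ne', Real.one_rpow]
  calc (1 / p) ^ p * q ^ q * ((1 / q) ^ q * p ^ p)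
      = ((1 / p) ^ p * p ^ p) * ((1 / q) ^ q * q ^ q) := by ring
    _ = 1 := by rw [h2, h3, one_mul]

section Graph

variable {ν : E × Bool → V} {g : E → ZMod k}

theorem lo_pos (hg : ∀ e, g e ≠ 0) (d : E × Bool) : 0 < lo ν g d := by
  unfold lo; split <;> exact od_pos hg _

theorem lo_lt (d : E × Bool) : lo ν g d < k := by
  unfold lo; split <;> exact od_lt _ _

/-- The Bethe factor of a dart. -/
noncomputable def ed (ν : E × Bool → V) (g : E → ZMod k) (d : E × Bool) : ℝ :=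
  en ((lo ν g d : ℝ) / k)

theorem ed_pos (hg : ∀ e, g e ≠ 0) (d : E × Bool) : 0 < ed ν g d := by
  have hk := k_pos k
  have h1 := lo_pos (ν := ν) hg d
  have h2 := lo_lt (ν := ν) (g := g) d
  refine en_pos (by positivity) ?_
  rw [div_lt_one hk]
  exact_mod_cast h2

theorem ed_mul (hg : ∀ e, g e ≠ 0) {d d' : E × Bool} (h : lo ν g d + lo ν g d' = k) :
    ed ν g d * ed ν g d' = 1 := by
  have hk := k_pos k
  have h1 := lo_pos (ν := ν) hg d
  have h2 := lo_pos (ν := ν) hg d'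
  refine en_mul (by positivity) (by positivity) ?_
  rw [← add_div, ← Nat.cast_add, h, div_self hk.ne']

theorem links_sq (hg : ∀ e, g e ≠ 0) :
    (∏ l ∈ links ν g, ed ν g l) ^ 2 = ∏ d : E × Bool, ed ν g d := by
  rw [links, Finset.prod_filter, Fintype.prod_prod_type, Fintype.prod_prod_type,
    ← Finset.prod_pow]
  refine prod_congr rfl fun e _ => ?_
  rw [Fintype.prod_bool, Fintype.prod_bool]
  have hb1 : bar (e, true) = (e, false) := rfl
  have hb2 : bar (e, false) = (e, true) := rfl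
  have hod := od_bar hg (e, false)
  rw [hb2] at hod
  rw [hb1, hb2]
  by_cases hA : clA ν g (ν (e, false)) <;> by_cases hB : clA ν g (ν (e, true))
  · have hm : ed ν g (e, true) * ed ν g (e, false) = 1 := by
      refine ed_mul hg ?_
      unfold lo
      rw [if_pos hA, if_pos hB]; omega
    simp [hA, hB, hm]
  · have hm : ed ν g (e, true) = ed ν g (e, false) := by
      unfold ed lo
      rw [if_pos hA, if_neg hB, hb1]
    simp [hA, hB, hm, sq]
  · have hm : ed ν g (e, false) = ed ν g (e, true) := by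
      unfold ed lo
      rw [if_neg hA, if_pos hB, hb2]
    simp [hA, hB, hm, sq]
  · have hm : ed ν g (e, true) * ed ν g (e, false) = 1 := by
      refine ed_mul hg ?_
      unfold lo
      rw [if_neg hA, if_neg hB, hb1, hb2]; omega
    simp [hA, hB, hm]

/-- The Bethe bound for the number of lifts. -/
theorem lb (hg : ∀ e, g e ≠ 0) (h3 : ∀ v, (darts ν v).card = 3)
    (hs : ∀ v, ∑ d ∈ darts ν v, od g d = k ∨ ∑ d ∈ darts ν v, od g d = 2 * k) :
    ∏ v, ∏ d ∈ darts ν v, ed ν g d ≤ ((lifts ν g).card : ℝ) ^ 2 := by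
  obtain ⟨hcard, h1⟩ := PM_cubic hg h3 hs
  have h2 : ((Pool.Agent.H66.FX.PM (links ν g) (lr ν g) (lc ν g) (cols ν g).toList
      (rows ν g)).card : ℝ) ≤ ((lifts ν g).card : ℝ) := by
    exact_mod_cast PM_le_lifts h3 hs hcard
  have h4 : ∏ l ∈ links ν g, ed ν g l ≤ ((lifts ν g).card : ℝ) := h1.trans h2
  have h5 : 0 ≤ ∏ l ∈ links ν g, ed ν g l := prod_nonneg fun l _ => (ed_pos hg l).le
  have h6 := pow_le_pow_left₀ h5 h4 2
  rw [links_sq hg, ← Finset.prod_fiberwise (s := univ) (g := ν)] at h6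
  exact h6

theorem three_darts {v : V} (h3 : (darts ν v).card = 3) :
    ∃ d1 d2 d3, d1 ≠ d2 ∧ d1 ≠ d3 ∧ d2 ≠ d3 ∧ darts ν v = {d1, d2, d3} := by
  obtain ⟨d1, d2, d3, h1, h2, h3, h⟩ := Finset.card_eq_three.1 h3
  exact ⟨d1, d2, d3, h1, h2, h3, h⟩

theorem sum_darts {M' : Type*} [AddCommMonoid M'] {v : V}
    {d1 d2 d3 : E × Bool} (h12 : d1 ≠ d2) (h13 : d1 ≠ d3) (h23 : d2 ≠ d3)
    (h : darts ν v = {d1, d2, d3}) (f : E × Bool → M') :
    ∑ d ∈ darts ν v, f d = f d1 + f d2 + f d3 := by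
  rw [h, Finset.sum_insert (by simp [h12, h13]), Finset.sum_insert (by simp [h23]),
    Finset.sum_singleton, add_assoc]

theorem prod_darts {M' : Type*} [CommMonoid M'] {v : V}
    {d1 d2 d3 : E × Bool} (h12 : d1 ≠ d2) (h13 : d1 ≠ d3) (h23 : d2 ≠ d3)
    (h : darts ν v = {d1, d2, d3}) (f : E × Bool → M') :
    ∏ d ∈ darts ν v, f d = f d1 * f d2 * f d3 := by
  rw [h, Finset.prod_insert (by simp [h12, h13]), Finset.prod_insert (by simp [h23]),
    Finset.prod_singleton, mul_assoc]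

/-- The sum of the representatives at a cubic vertex. -/
theorem hs_of (hg : ∀ e, g e ≠ 0)
    (h3 : ∀ v, (darts ν v).card = 3) (h0 : ∀ v, ∑ d ∈ darts ν v, Gd g d = 0) (v : V) :
    ∑ d ∈ darts ν v, od g d = k ∨ ∑ d ∈ darts ν v, od g d = 2 * k := by
  obtain ⟨d1, d2, d3, h12, h13, h23, h⟩ := three_darts (h3 v)
  have h0 := h0 v
  have h4 : ((∑ d ∈ darts ν v, od g d : ℕ) : ZMod k) = 0 := by
    rw [Nat.cast_sum, ← h0]
    refine sum_congr rfl fun d _ => ?_
    unfold od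
    rw [ZMod.natCast_val, ZMod.cast_id', id]
  rw [ZMod.natCast_eq_zero_iff] at h4
  rw [sum_darts h12 h13 h23 h] at h4 ⊢
  have p1 := od_pos hg d1
  have p2 := od_pos hg d2
  have p3 := od_pos hg d3
  have q1 := od_lt g d1
  have q2 := od_lt g d2
  have q3 := od_lt g d3
  obtain ⟨c, hc⟩ := h4
  have hc3 : c < 3 := by
    by_contra hcon
    push Not at hcon
    have := Nat.mul_le_mul_left k hcon
    omega
  interval_cases c <;> omega

/-- The three values `lo` at a vertex sum to `k`. -/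
theorem lo_sum (hg : ∀ e, g e ≠ 0) {v : V} {d1 d2 d3 : E × Bool} (h12 : d1 ≠ d2) (h13 : d1 ≠ d3)
    (h23 : d2 ≠ d3) (h : darts ν v = {d1, d2, d3})
    (hs : ∑ d ∈ darts ν v, od g d = k ∨ ∑ d ∈ darts ν v, od g d = 2 * k) :
    lo ν g d1 + lo ν g d2 + lo ν g d3 = k := by
  have m1 : ν d1 = v := mem_darts.1 (by rw [h]; simp)
  have m2 : ν d2 = v := mem_darts.1 (by rw [h]; simp)
  have m3 : ν d3 = v := mem_darts.1 (by rw [h]; simp)
  have b1 := od_bar hg d1
  have b2 := od_bar hg d2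
  have b3 := od_bar hg d3
  unfold lo
  rw [m1, m2, m3]
  by_cases hA : clA ν g v
  · rw [if_pos hA, if_pos hA, if_pos hA, ← sum_darts h12 h13 h23 h]
    exact hA
  · rw [if_neg hA, if_neg hA, if_neg hA]
    have h4 := hs.resolve_left hA
    rw [sum_darts h12 h13 h23 h] at h4
    omega

end Graph

/-! ### The vertex bound for all `k` -/

theorem en_prod {p q r : ℝ} (hp : 0 < p) (hq : 0 < q) (hr : 0 < r) (h : p + q + r = 1) :
    (((1 - q) * (1 - r) / p)⁻¹) ^ p * (((1 - p) * (1 - r) / q)⁻¹) ^ q *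
      (((1 - p) * (1 - q) / r)⁻¹) ^ r * (en p * en q * en r) = 1 := by
  have p1 : 0 < 1 - p := by linarith
  have q1 : 0 < 1 - q := by linarith
  have r1 : 0 < 1 - r := by linarith
  rw [Real.inv_rpow (by positivity), Real.inv_rpow (by positivity), Real.inv_rpow (by positivity),
    Real.div_rpow (by positivity) hp.le, Real.div_rpow (by positivity) hq.le,
    Real.div_rpow (by positivity) hr.le, Real.mul_rpow q1.le r1.le, Real.mul_rpow p1.le r1.le,
    Real.mul_rpow p1.le q1.le]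
  unfold en
  rw [Real.div_rpow zero_le_one hp.le, Real.div_rpow zero_le_one hq.le,
    Real.div_rpow zero_le_one hr.le, Real.one_rpow, Real.one_rpow, Real.one_rpow]
  have e1 : (1 - p) ^ (1 - p) = (1 - p) ^ q * (1 - p) ^ r := by
    rw [← Real.rpow_add p1]; congr 1; linarith
  have e2 : (1 - q) ^ (1 - q) = (1 - q) ^ p * (1 - q) ^ r := by
    rw [← Real.rpow_add q1]; congr 1; linarith
  have e3 : (1 - r) ^ (1 - r) = (1 - r) ^ p * (1 - r) ^ q := by
    rw [← Real.rpow_add r1]; congr 1; linarith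
  rw [e1, e2, e3]
  have := (Real.rpow_pos_of_pos p1 q).ne'
  have := (Real.rpow_pos_of_pos p1 r).ne'
  have := (Real.rpow_pos_of_pos q1 p).ne'
  have := (Real.rpow_pos_of_pos q1 r).ne'
  have := (Real.rpow_pos_of_pos r1 p).ne'
  have := (Real.rpow_pos_of_pos r1 q).ne'
  have := (Real.rpow_pos_of_pos hp p).ne'
  have := (Real.rpow_pos_of_pos hq q).ne'
  have := (Real.rpow_pos_of_pos hr r).ne'
  field_simp

theorem en_harm {p q r : ℝ} (hp : 0 < p) (hq : 0 < q) (hr : 0 < r) (h : p + q + r = 1) :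
    1 ≤ (p ^ 2 / ((1 - q) * (1 - r)) + q ^ 2 / ((1 - p) * (1 - r)) +
      r ^ 2 / ((1 - p) * (1 - q))) * (en p * en q * en r) := by
  have p1 : 0 < 1 - p := by linarith
  have q1 : 0 < 1 - q := by linarith
  have r1 : 0 < 1 - r := by linarith
  have ham := Real.geom_mean_le_arith_mean3_weighted hp.le hq.le hr.le
    (p₁ := ((1 - q) * (1 - r) / p)⁻¹) (p₂ := ((1 - p) * (1 - r) / q)⁻¹)
    (p₃ := ((1 - p) * (1 - q) / r)⁻¹) (by positivity) (by positivity) (by positivity) h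
  have hen : 0 < en p * en q * en r :=
    mul_pos (mul_pos (en_pos hp (by linarith)) (en_pos hq (by linarith))) (en_pos hr (by linarith))
  have h2 := mul_le_mul_of_nonneg_right ham hen.le
  rw [en_prod hp hq hr h] at h2
  refine h2.trans (le_of_eq ?_)
  congr 1
  field_simp

theorem vertex_k {a b c : ℕ} (ha : 0 < a) (hb : 0 < b) (hc : 0 < c) (h : a + b + c = k) :
    ((k : ℝ) + 1) / k ≤ en ((a : ℝ) / k) * en ((b : ℝ) / k) * en ((c : ℝ) / k) := by
  have hk := k_pos k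
  have ha' : (1 : ℝ) ≤ a := by exact_mod_cast ha
  have hb' : (1 : ℝ) ≤ b := by exact_mod_cast hb
  have hc' : (1 : ℝ) ≤ c := by exact_mod_cast hc
  have hsum : (a : ℝ) + b + c = k := by exact_mod_cast h
  have hp : 0 < (a : ℝ) / k := by positivity
  have hq : 0 < (b : ℝ) / k := by positivity
  have hr : 0 < (c : ℝ) / k := by positivity
  have h1 : (a : ℝ) / k + b / k + c / k = 1 := by
    rw [← add_div, ← add_div, hsum, div_self hk.ne']
  have hh := en_harm hp hq hr h1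
  set X := en ((a : ℝ) / k) * en ((b : ℝ) / k) * en ((c : ℝ) / k) with hX
  have e1 : 1 - (a : ℝ) / k = (b + c) / k := by rw [← hsum]; field_simp; ring
  have e2 : 1 - (b : ℝ) / k = (a + c) / k := by rw [← hsum]; field_simp; ring
  have e3 : 1 - (c : ℝ) / k = (a + b) / k := by rw [← hsum]; field_simp; ring
  have hXp : 0 < X := by
    have l1 : (a : ℝ) / k < 1 := by rw [div_lt_one hk]; linarith
    have l2 : (b : ℝ) / k < 1 := by rw [div_lt_one hk]; linarith
    have l3 : (c : ℝ) / k < 1 := by rw [div_lt_one hk]; linarith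
    exact mul_pos (mul_pos (en_pos hp l1) (en_pos hq l2)) (en_pos hr l3)
  rw [e1, e2, e3] at hh
  have hfrac : ((a : ℝ) / k) ^ 2 / ((a + c) / k * ((a + b) / k)) +
      ((b : ℝ) / k) ^ 2 / ((b + c) / k * ((a + b) / k)) +
      ((c : ℝ) / k) ^ 2 / ((b + c) / k * ((a + c) / k)) ≤ k / (k + 1) := by
    have e4 : ((a : ℝ) / k) ^ 2 / ((a + c) / k * ((a + b) / k)) +
      ((b : ℝ) / k) ^ 2 / ((b + c) / k * ((a + b) / k)) +
      ((c : ℝ) / k) ^ 2 / ((b + c) / k * ((a + c) / k)) =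
        ((a : ℝ) ^ 2 * (b + c) + b ^ 2 * (a + c) + c ^ 2 * (a + b)) /
          ((a + b) * (b + c) * (a + c)) := by
      have : (0 : ℝ) < a + b := by linarith
      have : (0 : ℝ) < a + c := by linarith
      have : (0 : ℝ) < b + c := by linarith
      field_simp
    rw [e4, div_le_div_iff₀ (by positivity) (by positivity), ← hsum]
    have i1 : (b : ℝ) + c ≤ 2 * (b * c) := by nlinarith
    have i2 : (a : ℝ) + c ≤ 2 * (a * c) := by nlinarith
    have i3 : (a : ℝ) + b ≤ 2 * (a * b) := by nlinarith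
    nlinarith [mul_le_mul_of_nonneg_left i1 (sq_nonneg (a : ℝ)),
      mul_le_mul_of_nonneg_left i2 (sq_nonneg (b : ℝ)),
      mul_le_mul_of_nonneg_left i3 (sq_nonneg (c : ℝ))]
  have h2 : 1 ≤ (k : ℝ) / (k + 1) * X := hh.trans (mul_le_mul_of_nonneg_right hfrac hXp.le)
  rw [div_le_iff₀ hk]
  have hk1 : (0 : ℝ) < k + 1 := by linarith
  have h3 : (k : ℝ) / (k + 1) * X * (k + 1) = X * k := by field_simp
  have h4 := mul_le_mul_of_nonneg_right h2 hk1.le
  rw [h3, one_mul] at h4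
  exact h4

/-- Every nowhere-zero flow modulo `k` on a cubic multigraph has many lifts. -/
theorem cubic_k {ν : E × Bool → V} {g : E → ZMod k} (hg : ∀ e, g e ≠ 0)
    (h3 : ∀ v, (darts ν v).card = 3) (h0 : ∀ v, ∑ d ∈ darts ν v, Gd g d = 0) :
    (((k : ℝ) + 1) / k) ^ (Fintype.card V) ≤ ((lifts ν g).card : ℝ) ^ 2 := by
  have hs := hs_of hg h3 h0
  have hk := k_pos k
  refine le_trans ?_ (lb hg h3 hs)
  rw [← card_univ, ← prod_const]
  refine prod_le_prod (fun _ _ => by positivity) fun v _ => ?_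
  obtain ⟨d1, d2, d3, h12, h13, h23, h⟩ := three_darts (h3 v)
  rw [prod_darts h12 h13 h23 h]
  exact vertex_k (lo_pos hg _) (lo_pos hg _) (lo_pos hg _) (lo_sum hg h12 h13 h23 h (hs v))

/-! ### The constants for `k = 5` -/

/-- The fifth power of the Bethe factor of `a / 5`. -/
def e5 (a : ℕ) : ℚ := (5 / (a : ℚ)) ^ a * ((5 - (a : ℚ)) / 5) ^ (5 - a)

theorem en_e5 {a : ℕ} (h0 : 0 < a) (h5 : a < 5) : en ((a : ℝ) / (5 : ℕ)) ^ 5 = ((e5 a : ℚ) : ℝ) := by
  have ha : (0 : ℝ) < a := by exact_mod_cast h0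
  have ha5 : (a : ℝ) < 5 := by exact_mod_cast h5
  have h1 : (0 : ℝ) < 1 - (a : ℝ) / 5 := by
    have : (a : ℝ) / 5 < 1 := by rw [div_lt_one (by norm_num)]; exact ha5
    linarith
  have hcast : ((5 - a : ℕ) : ℝ) = 5 - a := by rw [Nat.cast_sub h5.le]; norm_num
  unfold en e5
  rw [Nat.cast_ofNat, mul_pow, ← Real.rpow_mul_natCast (by positivity),
    ← Real.rpow_mul_natCast h1.le]
  have e1 : (a : ℝ) / 5 * ((5 : ℕ) : ℝ) = (a : ℝ) := by push_cast; ring
  have e2 : (1 - (a : ℝ) / 5) * ((5 : ℕ) : ℝ) = ((5 - a : ℕ) : ℝ) := by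
    rw [hcast]; push_cast; ring
  rw [e1, e2, Real.rpow_natCast, Real.rpow_natCast]
  push_cast
  congr 2
  · rw [one_div_div]
  · ring

/-- The fifth power of the factor of a vertex, as a function of the values. -/
def vf (a b c : ZMod 5) : ℚ :=
  if a.val + b.val + c.val = 5 then e5 a.val * e5 b.val * e5 c.val
  else e5 (-a).val * e5 (-b).val * e5 (-c).val

theorem vf_single : ∀ a b c : ZMod 5, a ≠ 0 → b ≠ 0 → c ≠ 0 → a + b + c = 0 →
    (784 / 625 : ℚ) ^ 5 ≤ vf a b c := by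
  decide +kernel

theorem vf_pair : ∀ a b c : ZMod 5, a ≠ 0 → b ≠ 0 → c ≠ 0 → a + b + c = 0 →
    (1277 / 1000 : ℚ) ^ 10 ≤ vf a b c * vf (2 * a) (2 * b) (2 * c) := by
  decide +kernel

theorem vf_eq {ν : E × Bool → V} {g : E → ZMod 5} (hg : ∀ e, g e ≠ 0) {v : V}
    {d1 d2 d3 : E × Bool} (h12 : d1 ≠ d2) (h13 : d1 ≠ d3) (h23 : d2 ≠ d3)
    (h : darts ν v = {d1, d2, d3}) :
    (∏ d ∈ darts ν v, ed ν g d) ^ 5 = ((vf (Gd g d1) (Gd g d2) (Gd g d3) : ℚ) : ℝ) := by
  have m1 : ν d1 = v := mem_darts.1 (by rw [h]; simp)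
  have m2 : ν d2 = v := mem_darts.1 (by rw [h]; simp)
  have m3 : ν d3 = v := mem_darts.1 (by rw [h]; simp)
  have hb : ∀ d, od g (bar d) = (-Gd g d).val := fun d => by unfold od; rw [Gd_bar]
  have h1 : clA ν g v ↔ (Gd g d1).val + (Gd g d2).val + (Gd g d3).val = 5 := by
    unfold clA
    rw [sum_darts h12 h13 h23 h]
    rfl
  have hlo : ∀ d, ed ν g d ^ 5 = ((e5 (lo ν g d) : ℚ) : ℝ) := fun d =>
    en_e5 (lo_pos hg d) (lo_lt d)
  rw [prod_darts h12 h13 h23 h, mul_pow, mul_pow, hlo, hlo, hlo]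
  unfold vf lo
  rw [m1, m2, m3]
  by_cases hA : clA ν g v
  · rw [if_pos hA, if_pos hA, if_pos hA, if_pos (h1.1 hA)]
    push_cast
    rfl
  · rw [if_neg hA, if_neg hA, if_neg hA, if_neg (fun hh => hA (h1.2 hh)), hb, hb, hb]
    push_cast
    rfl

theorem Gd_mul (m : ZMod k) (g : E → ZMod k) (d : E × Bool) :
    Gd (fun e => m * g e) d = m * Gd g d := by
  unfold Gd; split <;> ring

theorem cubic_five {ν : E × Bool → V} {g : E → ZMod 5} (hg : ∀ e, g e ≠ 0)
    (h3 : ∀ v, (darts ν v).card = 3) (h0 : ∀ v, ∑ d ∈ darts ν v, Gd g d = 0) :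
    (784 / 625 : ℝ) ^ (Fintype.card V) ≤ ((lifts ν g).card : ℝ) ^ 2 := by
  have hs := hs_of hg h3 h0
  have h1 : ((784 / 625 : ℝ) ^ (Fintype.card V)) ^ 5 ≤ (((lifts ν g).card : ℝ) ^ 2) ^ 5 := by
    refine le_trans ?_ (pow_le_pow_left₀ (prod_nonneg fun v _ => prod_nonneg fun d _ =>
      (ed_pos hg d).le) (lb hg h3 hs) 5)
    rw [← Finset.prod_pow, ← pow_mul, mul_comm, pow_mul, ← card_univ, ← prod_const]
    refine prod_le_prod (fun _ _ => by positivity) fun v _ => ?_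
    obtain ⟨d1, d2, d3, h12, h13, h23, h⟩ := three_darts (h3 v)
    have h0v := h0 v
    rw [sum_darts h12 h13 h23 h] at h0v
    rw [vf_eq hg h12 h13 h23 h]
    have := (Rat.cast_le (K := ℝ)).2 (vf_single (Gd g d1) (Gd g d2) (Gd g d3) (Gd_ne hg _)
      (Gd_ne hg _) (Gd_ne hg _) h0v)
    push_cast at this
    exact this
  exact le_of_pow_le_pow_left₀ (by norm_num) (by positivity) h1

theorem cubic_five_pair {ν : E × Bool → V} {g : E → ZMod 5} (hg : ∀ e, g e ≠ 0)
    (h3 : ∀ v, (darts ν v).card = 3) (h0 : ∀ v, ∑ d ∈ darts ν v, Gd g d = 0) :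
    (1277 / 1000 : ℝ) ^ (Fintype.card V) ≤
      ((lifts ν g).card : ℝ) * ((lifts ν (fun e => 2 * g e)).card : ℝ) := by
  have hs := hs_of hg h3 h0
  have hg2 : ∀ e, (fun e => 2 * g e) e ≠ 0 := by
    intro e
    have : ∀ a : ZMod 5, a ≠ 0 → 2 * a ≠ 0 := by decide
    exact this _ (hg e)
  have h02 : ∀ v, ∑ d ∈ darts ν v, Gd (fun e => 2 * g e) d = 0 := by
    intro v
    rw [sum_congr rfl (fun d _ => Gd_mul 2 g d), ← mul_sum, h0 v, mul_zero]
  have hs2 := hs_of hg2 h3 h02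
  have h1 : ((1277 / 1000 : ℝ) ^ (Fintype.card V)) ^ 10 ≤
      (((lifts ν g).card : ℝ) * ((lifts ν (fun e => 2 * g e)).card : ℝ)) ^ 10 := by
    have hl := mul_le_mul (lb hg h3 hs) (lb hg2 h3 hs2)
      (prod_nonneg fun v _ => prod_nonneg fun d _ => (ed_pos hg2 d).le) (by positivity)
    rw [← prod_mul_distrib, ← mul_pow] at hl
    have hl5 := pow_le_pow_left₀ (prod_nonneg fun v _ => mul_nonneg
      (prod_nonneg fun d _ => (ed_pos hg d).le) (prod_nonneg fun d _ => (ed_pos hg2 d).le)) hl 5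
    rw [← pow_mul] at hl5
    refine le_trans ?_ hl5
    rw [← Finset.prod_pow, ← pow_mul, mul_comm, pow_mul, ← card_univ, ← prod_const]
    refine prod_le_prod (fun _ _ => by positivity) fun v _ => ?_
    obtain ⟨d1, d2, d3, h12, h13, h23, h⟩ := three_darts (h3 v)
    have h0v := h0 v
    rw [sum_darts h12 h13 h23 h] at h0v
    rw [mul_pow, vf_eq hg h12 h13 h23 h, vf_eq hg2 h12 h13 h23 h]
    simp only [Gd_mul]
    have := (Rat.cast_le (K := ℝ)).2 (vf_pair (Gd g d1) (Gd g d2) (Gd g d3) (Gd_ne hg _)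
      (Gd_ne hg _) (Gd_ne hg _) h0v)
    push_cast at this
    exact this
  exact le_of_pow_le_pow_left₀ (by norm_num) (by positivity) h1

end Pool.Agent.H66.FY
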