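import Pool.Agent.H66.FX.Perm

/-!
# The Rayleigh property of mixed permanents
-/

set_option linter.unusedSectionVars false

namespace Pool.Agent.H66.FY

open Finset Pool.Agent.H66.FX

variable {ρ γ : Type*} [DecidableEq ρ] [DecidableEq γ]

section Affine
variable {R : Type*} [CommSemiring R]

theorem P_congr_l {a : ρ → γ → R} {ℓ ℓ' : ρ → R} (T : Finset γ) (A : Finset ρ)
    (h : ∀ r ∈ A, ℓ r = ℓ' r) : P a ℓ T A = P a ℓ' T A :=
  M_congr T.toList A (fun _ _ _ _ => rfl) h

theorem P_update (a : ρ → γ → R) (ℓ : ρ → R) (T : Finset γ) (A : Finset ρ) {r : ρ} (hr : r ∈ A)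
    (x : R) : P a (Function.update ℓ r x) T A =
      P a (Function.update ℓ r 0) T A + x * P a ℓ T (A.erase r) := by
  have h1 : ∀ (z : R) (T' : Finset γ), P a (Function.update ℓ r z) T' (A.erase r) =
      P a ℓ T' (A.erase r) := by
    intro z T'
    refine P_congr_l T' _ fun s hs => ?_
    rw [Function.update_of_ne (ne_of_mem_erase hs)]
  rw [P_row a (Function.update ℓ r x) T A hr, P_row a (Function.update ℓ r 0) T A hr]
  simp only [h1, Function.update_self, zero_mul, zero_add]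
  rw [add_comm]

theorem P_update2 (a : ρ → γ → R) (ℓ : ρ → R) (T : Finset γ) (A : Finset ρ) {r s : ρ} (hr : r ∈ A)
    (hs : s ∈ A) (hrs : r ≠ s) (x y : R) :
    P a (Function.update (Function.update ℓ r x) s y) T A =
      P a (Function.update (Function.update ℓ s 0) r 0) T A +
        x * P a (Function.update ℓ s 0) T (A.erase r) +
        y * P a (Function.update ℓ r 0) T (A.erase s) +
        x * y * P a ℓ T ((A.erase s).erase r) := by
  rw [P_update a (Function.update ℓ r x) T A hs y, Function.update_comm hrs,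
    P_update a (Function.update ℓ s 0) T A hr x,
    P_update a ℓ T (A.erase s) (mem_erase.2 ⟨hrs, hr⟩) x]
  ring

end Affine

theorem two_var {α β γ' δ : ℝ} (h : ∀ x y : ℂ, 0 < x.im → 0 < y.im →
    (α : ℂ) + x * β + y * γ' + x * y * δ ≠ 0) : α * δ ≤ β * γ' := by
  by_contra hcon
  push Not at hcon
  have hne : (γ' : ℂ) + Complex.I * δ ≠ 0 := by
    intro h0
    have h1 := congrArg Complex.re h0
    have h2 := congrArg Complex.im h0
    simp at h1 h2
    rw [h1, h2] at hcon
    simp at hcon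
  have hn : 0 < γ' ^ 2 + δ ^ 2 := by
    rcases eq_or_ne δ 0 with hd | hd
    · rcases eq_or_ne γ' 0 with hg | hg
      · rw [hd, hg] at hcon; simp at hcon
      · positivity
    · positivity
  set y : ℂ := -((α : ℂ) + Complex.I * β) / ((γ' : ℂ) + Complex.I * δ) with hy
  have hyim : y.im = (α * δ - β * γ') / (γ' ^ 2 + δ ^ 2) := by
    have h1 : Complex.normSq ((γ' : ℂ) + Complex.I * δ) = γ' ^ 2 + δ ^ 2 := by
      simp [Complex.normSq_apply]; ring
    rw [hy, Complex.div_im, h1]
    simp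
    field_simp
    ring
  have hypos : 0 < y.im := by
    rw [hyim]
    exact div_pos (by linarith) hn
  refine h Complex.I y (by simp) hypos ?_
  have h3 : y * ((γ' : ℂ) + Complex.I * δ) = -((α : ℂ) + Complex.I * β) := by
    rw [hy, div_mul_cancel₀ _ hne]
  linear_combination h3

/-- Nonvanishing with two variables in the upper half plane. -/
theorem nonvanish {a : ρ → γ → ℝ} {ℓ : ρ → ℝ} {T : Finset γ} {A : Finset ρ}
    (hTA : T.card ≤ A.card) (ha : ∀ r ∈ A, ∀ c ∈ T, 0 < a r c) (hl : ∀ r ∈ A, 0 < ℓ r)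
    (r s : ρ) {x y : ℂ} (hx : 0 < x.im) (hy : 0 < y.im) :
    P (fun r c => (a r c : ℂ))
      (Function.update (Function.update (fun r => (ℓ r : ℂ)) r x) s y) T A ≠ 0 := by
  set L : ρ → ℂ := Function.update (Function.update (fun r => (ℓ r : ℂ)) r x) s y with hL
  obtain ⟨ε, hε, hεx, hεy⟩ : ∃ ε : ℝ, 0 < ε ∧ 0 < ε * x.re + x.im ∧ 0 < ε * y.re + y.im := by
    have hm : ∀ z : ℂ, 0 < z.im → ∀ ε : ℝ, 0 < ε → ε ≤ z.im / (|z.re| + 1) →
        0 < ε * z.re + z.im := by
      intro z hz ε hε hle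
      have h1 : 0 < |z.re| + 1 := by positivity
      have h2 : ε * (|z.re| + 1) ≤ z.im := by
        rw [le_div_iff₀ h1] at hle; exact hle
      have h3 : -(ε * |z.re|) ≤ ε * z.re := by
        have := mul_le_mul_of_nonneg_left (neg_abs_le z.re) hε.le
        linarith
      nlinarith
    refine ⟨min (x.im / (|x.re| + 1)) (y.im / (|y.re| + 1)), by positivity, ?_, ?_⟩
    · exact hm x hx _ (by positivity) (min_le_left _ _)
    · exact hm y hy _ (by positivity) (min_le_right _ _)
  set w : ℂ := (ε : ℂ) - Complex.I with hw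
  have hw0 : w ≠ 0 := by
    intro h0
    have := congrArg Complex.im h0
    simp [hw] at this
  have hre : ∀ z : ℂ, (w * z).re = ε * z.re + z.im := by
    intro z
    simp [hw]
  have hst := stable (a := a) (ℓ := fun q => w * L q) hTA ha (by
    intro q hq
    rw [hre]
    by_cases h1 : q = s
    · subst h1; rw [hL, Function.update_self]; exact hεy
    · rw [hL, Function.update_of_ne h1]
      by_cases h2 : q = r
      · subst h2; rw [Function.update_self]; exact hεx
      · rw [Function.update_of_ne h2]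
        simpa using mul_pos hε (hl q hq))
  intro h0
  apply hst
  have hh := M_homog (fun r c => (a r c : ℂ)) L w T.toList A
  unfold P at h0 ⊢
  rw [h0, mul_zero] at hh
  exact (mul_eq_zero.1 hh).resolve_right (pow_ne_zero _ hw0)

theorem P_ofReal (a : ρ → γ → ℝ) (ℓ : ρ → ℝ) (T : Finset γ) (A : Finset ρ) :
    P (fun r c => (a r c : ℂ)) (fun r => (ℓ r : ℂ)) T A = ((P a ℓ T A : ℝ) : ℂ) := by
  have := M_map Complex.ofRealHom a ℓ T.toList A
  exact this.symm

theorem update_ofReal (ℓ : ρ → ℝ) (r : ρ) :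
    Function.update (fun q => (ℓ q : ℂ)) r 0 = fun q => ((Function.update ℓ r 0 q : ℝ) : ℂ) := by
  funext q
  by_cases h : q = r
  · subst h; simp
  · rw [Function.update_of_ne h, Function.update_of_ne h]

theorem rayleigh {a : ρ → γ → ℝ} {ℓ : ρ → ℝ} {T : Finset γ} {A : Finset ρ}
    (hTA : T.card ≤ A.card) (ha : ∀ r ∈ A, ∀ c ∈ T, 0 < a r c) (hl : ∀ r ∈ A, 0 < ℓ r)
    {r s : ρ} (hr : r ∈ A) (hs : s ∈ A) (hrs : r ≠ s) :
    P a (Function.update (Function.update ℓ s 0) r 0) T A * P a ℓ T ((A.erase s).erase r) ≤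
      P a (Function.update ℓ s 0) T (A.erase r) * P a (Function.update ℓ r 0) T (A.erase s) := by
  apply two_var
  intro x y hx hy
  have h := nonvanish hTA ha hl r s hx hy
  rw [P_update2 _ _ T A hr hs hrs x y, update_ofReal, update_ofReal, update_ofReal, P_ofReal,
    P_ofReal, P_ofReal, P_ofReal] at h
  exact h

/-- Increase of one coordinate. -/
def inc (ℓ : ρ → ℝ) (r : ρ) (u : ℝ) : ρ → ℝ := fun q => ℓ q + if q = r then u else 0

theorem inc_eq (ℓ : ρ → ℝ) (r : ρ) (u : ℝ) : inc ℓ r u = Function.update ℓ r (ℓ r + u) := by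
  funext q
  by_cases h : q = r
  · subst h; simp [inc]
  · simp [inc, h]

theorem P_inc (a : ρ → γ → ℝ) (ℓ : ρ → ℝ) (T : Finset γ) (A : Finset ρ) {r : ρ} (hr : r ∈ A)
    (u : ℝ) : P a (inc ℓ r u) T A = P a ℓ T A + u * P a ℓ T (A.erase r) := by
  have h1 := P_update a ℓ T A hr (ℓ r + u)
  have h2 := P_update a ℓ T A hr (ℓ r)
  rw [Function.update_eq_self] at h2
  rw [inc_eq, h1, h2]
  ring

theorem inc_comm (ℓ : ρ → ℝ) (r s : ρ) (u v : ℝ) : inc (inc ℓ r u) s v = inc (inc ℓ s v) r u := by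
  funext q; simp only [inc]; ring

theorem inc_pos {ℓ : ρ → ℝ} {A : Finset ρ} (hl : ∀ r ∈ A, 0 < ℓ r) (r : ρ) {u : ℝ} (hu : 0 ≤ u) :
    ∀ q ∈ A, 0 < inc ℓ r u q := by
  intro q hq
  unfold inc
  have := hl q hq
  split <;> linarith

/-- Submodularity of the logarithm in two coordinate directions. -/
theorem submod2 {a : ρ → γ → ℝ} {ℓ : ρ → ℝ} {T : Finset γ} {A : Finset ρ}
    (hTA : T.card ≤ A.card) (ha : ∀ r ∈ A, ∀ c ∈ T, 0 < a r c) (hl : ∀ r ∈ A, 0 < ℓ r)
    {r s : ρ} (hr : r ∈ A) (hs : s ∈ A) {u v : ℝ} (hu : 0 ≤ u) (hv : 0 ≤ v) :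
    P a (inc (inc ℓ r u) s v) T A * P a ℓ T A ≤ P a (inc ℓ r u) T A * P a (inc ℓ s v) T A := by
  by_cases hrs : r = s
  · subst hrs
    have h3 : ∀ q ∈ A.erase r, inc ℓ r u q = ℓ q := by
      intro q hq
      simp [inc, ne_of_mem_erase hq]
    rw [P_inc a (inc ℓ r u) T A hr v, P_congr_l T (A.erase r) h3, P_inc a ℓ T A hr u,
      P_inc a ℓ T A hr v]
    nlinarith [mul_nonneg (mul_nonneg hu hv) (sq_nonneg (P a ℓ T (A.erase r)))]
  · have hray := rayleigh hTA ha hl hr hs hrs
    have e1 : inc (inc ℓ r u) s v =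
        Function.update (Function.update ℓ r (ℓ r + u)) s (ℓ s + v) := by
      rw [inc_eq, inc_eq, Function.update_of_ne (Ne.symm hrs)]
    have e2 : ℓ = Function.update (Function.update ℓ r (ℓ r)) s (ℓ s) := by
      rw [Function.update_eq_self, Function.update_eq_self]
    have e3 : inc ℓ r u = Function.update (Function.update ℓ r (ℓ r + u)) s (ℓ s) := by
      rw [inc_eq, Function.update_comm hrs, Function.update_eq_self]
    have e4 : inc ℓ s v = Function.update (Function.update ℓ r (ℓ r)) s (ℓ s + v) := by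
      rw [inc_eq, Function.update_eq_self]
    have f1 := P_update2 a ℓ T A hr hs hrs (ℓ r + u) (ℓ s + v)
    have f2 := P_update2 a ℓ T A hr hs hrs (ℓ r) (ℓ s)
    have f3 := P_update2 a ℓ T A hr hs hrs (ℓ r + u) (ℓ s)
    have f4 := P_update2 a ℓ T A hr hs hrs (ℓ r) (ℓ s + v)
    rw [← e1] at f1
    rw [← e2] at f2
    rw [← e3] at f3
    rw [← e4] at f4
    rw [f1, f2, f3, f4]
    nlinarith [mul_le_mul_of_nonneg_left hray (mul_nonneg hu hv)]

end Pool.Agent.H66.FY
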